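import Pool.Agent.H23.HKS.Spec2

/-!
# HKS2-2: `u` has no long windows of period `p`
-/

set_option autoImplicit false

namespace Pool.Agent.H23.HKS

private theorem ap_eq (n : ℕ) :
    V n = if n % 4 = 1 then true else if n % 4 = 2 then false else V (n / 4) := by
  by_cases h0 : n = 0
  · subst h0
    simp
  · conv_lhs => rw [V]
    rw [if_neg h0]

private theorem ap_V0 (m : ℕ) : V (4 * m) = V m := by
  rw [ap_eq (4 * m), if_neg (by omega), if_neg (by omega)]
  congr 1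
  omega

private theorem ap_V1 (n : ℕ) (h : n % 4 = 1) : V n = true := by
  rw [ap_eq n, if_pos h]

private theorem ap_V2 (n : ℕ) (h : n % 4 = 2) : V n = false := by
  rw [ap_eq n, if_neg (by omega), if_pos h]

private theorem ap_V (p : ℕ) : 1 ≤ p → ∃ R, ∀ i, ∃ k, k < R ∧ V (i + k) ≠ V (i + k + p) := by
  induction p using Nat.strong_induction_on with
  | _ p ih =>
    intro hp
    have h4 : p % 4 < 4 := Nat.mod_lt _ (by norm_num)
    have hcase : p % 4 = 0 ∨ p % 4 = 1 ∨ p % 4 = 2 ∨ p % 4 = 3 := by omega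
    rcases hcase with h | h | h | h
    · obtain ⟨R, hR⟩ := ih (p / 4) (by omega) (by omega)
      refine ⟨4 * R + 8, fun i => ?_⟩
      obtain ⟨k, hk, hne⟩ := hR ((i + 3) / 4)
      refine ⟨4 * ((i + 3) / 4 + k) - i, by omega, ?_⟩
      have e1 : i + (4 * ((i + 3) / 4 + k) - i) = 4 * ((i + 3) / 4 + k) := by omega
      have e2 : 4 * ((i + 3) / 4 + k) + p = 4 * ((i + 3) / 4 + k + p / 4) := by omega
      rw [e1, e2, ap_V0, ap_V0]
      exact hne
    · refine ⟨8, fun i => ⟨4 * ((i + 3) / 4) + 1 - i, by omega, ?_⟩⟩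
      have e1 : i + (4 * ((i + 3) / 4) + 1 - i) = 4 * ((i + 3) / 4) + 1 := by omega
      rw [e1, ap_V1 _ (by omega), ap_V2 _ (by omega)]
      simp
    · refine ⟨20, fun i => ⟨16 * ((i + 15) / 16) + 4 - i, by omega, ?_⟩⟩
      have e1 : i + (16 * ((i + 15) / 16) + 4 - i) = 4 * (4 * ((i + 15) / 16) + 1) := by omega
      rw [e1, ap_V0, ap_V1 _ (by omega), ap_V2 _ (by omega)]
      simp
    · refine ⟨8, fun i => ⟨4 * ((i + 3) / 4) + 2 - i, by omega, ?_⟩⟩
      have e1 : i + (4 * ((i + 3) / 4) + 2 - i) = 4 * ((i + 3) / 4) + 2 := by omega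
      rw [e1, ap_V2 _ (by omega), ap_V1 _ (by omega)]
      simp

private theorem ap_cod1 (c : Bool) : cod c 1 = 1 := by cases c <;> decide

private theorem ap_cod02 (c : Bool) (r : ℕ) (h : r ≠ 1) : cod c r ≠ 1 := by
  unfold cod
  rw [if_neg h]
  split_ifs
  · decide
  · decide

private theorem ap_cod0 (c d : Bool) (h : c ≠ d) : cod c 0 ≠ cod d 0 := by
  revert h
  cases c <;> cases d <;> decide

theorem aper : AperSt := by
  intro p hp
  by_cases h3 : p % 3 = 0
  · obtain ⟨R, hR⟩ := ap_V (p / 3) (by omega)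
    refine ⟨3 * R + 6, fun i => ?_⟩
    obtain ⟨k, hk, hne⟩ := hR ((i + 2) / 3)
    refine ⟨3 * ((i + 2) / 3 + k) - i, by omega, ?_⟩
    have e1 : i + (3 * ((i + 2) / 3 + k) - i) = 3 * ((i + 2) / 3 + k) := by omega
    rw [e1]
    unfold u
    rw [show 3 * ((i + 2) / 3 + k) / 3 = (i + 2) / 3 + k by omega,
      show (3 * ((i + 2) / 3 + k) + p) / 3 = (i + 2) / 3 + k + p / 3 by omega,
      show 3 * ((i + 2) / 3 + k) % 3 = 0 by omega,
      show (3 * ((i + 2) / 3 + k) + p) % 3 = 0 by omega]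
    exact ap_cod0 _ _ hne
  · refine ⟨6, fun i => ⟨3 * ((i + 2) / 3) + 1 - i, by omega, ?_⟩⟩
    have e1 : i + (3 * ((i + 2) / 3) + 1 - i) = 3 * ((i + 2) / 3) + 1 := by omega
    rw [e1]
    unfold u
    rw [show (3 * ((i + 2) / 3) + 1) % 3 = 1 by omega, ap_cod1]
    exact (ap_cod02 _ _ (by omega)).symm

end Pool.Agent.H23.HKS
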