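import Pool.Agent.H23.HKS.Spec

/-!
# Covering by palindromes
-/

namespace Pool.Agent.H23.HKS

lemma c_len {A : Type} (u : ℕ → A) (i n : ℕ) : (slice u i n).length = n := by simp [slice]

lemma c_get {A : Type} (u : ℕ → A) (i n k : ℕ) (h : k < (slice u i n).length) :
    (slice u i n)[k] = u (i + k) := by simp [slice]

lemma c_add {A : Type} (u : ℕ → A) (i n m : ℕ) :
    slice u i (n + m) = slice u i n ++ slice u (i + n) m := by
  apply List.ext_getElem
  · simp [c_len]
  · intro k h1 h2
    rw [c_get]
    by_cases hk : k < n
    · rw [List.getElem_append_left (by simpa [c_len] using hk), c_get]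
    · rw [List.getElem_append_right (by simpa [c_len] using hk), c_get]
      simp only [c_len]
      congr 1
      omega

lemma c_shift {A : Type} (u : ℕ → A) (j i n : ℕ) :
    slice (fun k => u (j + k)) i n = slice u (j + i) n := by
  simp [slice, add_assoc]

lemma c_app {A B : Type} (f : A → List B) (v w : List A) :
    app f (v ++ w) = app f v ++ app f w := by simp [app]

lemma c_app_sing {A B : Type} (f : A → List B) (a : A) : app f [a] = f a := by simp [app]

lemma c_begins {A B : Type} (hpos : PosSt) {f : A → List B} {x : ℕ → A} {y : ℕ → B}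
    (h : IsImage f x y) {p : List B} (hp : p <+: f (x 0)) : slice y 0 p.length = p := by
  have h1 := (hpos A B f x y h 0).1
  have h2 : slice y 0 (f (x 0)).length = f (x 0) := by simpa [slice, app] using h1
  obtain ⟨t, ht⟩ := hp
  rw [← ht, List.length_append, c_add] at h2
  exact List.append_inj_left h2 (by simp [c_len])

theorem goodBase (hpos : PosSt) : GoodBaseSt := by
  intro A B f ⟨p, hp, hf⟩
  exact ⟨p, hp, fun a => (hf a).2, fun x y hxy => c_begins hpos hxy (hf _).1⟩

lemma c_rev {A B : Type} {K : A → List B} {P : List B} (hP : P.reverse = P)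
    (hK : ∀ a, (K a ++ P).reverse = K a ++ P) (z : List A) :
    P ++ (app K z).reverse = app K z.reverse ++ P := by
  induction z with
  | nil => simp [app]
  | cons b z ih =>
    have h1 : app K (b :: z) = K b ++ app K z := by simp [app]
    have h2 : P ++ (K b).reverse = K b ++ P := by
      have := hK b
      rwa [List.reverse_append, hP] at this
    rw [h1, List.reverse_append, ← List.append_assoc, ih, List.append_assoc, h2,
      List.reverse_cons, c_app, c_app_sing]
    simp

lemma c_pal {A B : Type} {K : A → List B} {P : List B} (hP : P.reverse = P)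
    (hK : ∀ a, (K a ++ P).reverse = K a ++ P) {z : List A} (hz : z.reverse = z) :
    (app K z ++ P).reverse = app K z ++ P := by
  rw [List.reverse_append, hP, c_rev hP hK, hz]

theorem goodStep (hpos : PosSt) (hdec : DecompSt) : GoodStepSt := by
  intro A B C _ g K P ⟨p, hp, hg⟩ ⟨hP, hK, hT⟩
  refine ⟨app K p ++ P, c_pal hP hK hp, ?_, ?_⟩
  · intro a
    have h := c_pal hP hK (hg a).2
    rw [c_app] at h
    simpa only [List.append_assoc] using h
  · intro x z hxz
    obtain ⟨y, h1, h2⟩ := hdec A B C g K x z hxz
    have h3 : slice y 0 p.length = p := c_begins hpos h1 (hg _).1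
    obtain ⟨m, hm⟩ := h2.1 p.length
    rw [h3] at hm
    have hm' : m = (app K p).length := by rw [hm, c_len]
    have h4 := (hpos B C K y z h2 p.length).2
    rw [h3] at h4
    have h5 := hT _ _ h4
    rw [c_shift, Nat.add_zero] at h5
    rw [List.length_append, c_add, Nat.zero_add, h5]
    congr 1
    rw [← hm', hm]

lemma c_perm_of_conj {A B : Type} {f g : A → List B} (h : Conjugate f g) (a : A) :
    (f a).Perm (g a) := by
  rcases h with ⟨w, hw⟩ | ⟨w, hw⟩
  · have h1 : (f a ++ w).Perm (g a ++ w) := by
      rw [hw a]; exact List.perm_append_comm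
    exact (List.perm_append_right_iff w).1 h1
  · have h1 : (g a ++ w).Perm (f a ++ w) := by
      rw [hw a]; exact List.perm_append_comm
    exact ((List.perm_append_right_iff w).1 h1).symm

lemma c_perm_app {A B : Type} {f g : A → List B} (h : ∀ a, (f a).Perm (g a)) {v w : List A}
    (hvw : v.Perm w) : (app f v).Perm (app g w) := by
  have h1 : ∀ v : List A, (app f v).Perm (app g v) := by
    intro v
    induction v with
    | nil => simp [app]
    | cons a v ih =>
      have e1 : app f (a :: v) = f a ++ app f v := by simp [app]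
      have e2 : app g (a :: v) = g a ++ app g v := by simp [app]
      rw [e1, e2]
      exact (h a).append ih
  exact (h1 v).trans (List.Perm.flatMap_right _ hvw)

theorem len : LenSt := by
  intro B C g g' f f' hg hf n b
  have hg' : ∀ a, (g' a).Perm (g a) := fun a => (c_perm_of_conj hg a).symm
  have hf' : ∀ a, (f' a).Perm (f a) := fun a => (c_perm_of_conj hf a).symm
  have h : ((app g')^[n] [b]).Perm ((app g)^[n] [b]) := by
    induction n with
    | zero => exact List.Perm.refl _
    | succ n ih =>
      rw [Function.iterate_succ_apply', Function.iterate_succ_apply']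
      exact c_perm_app hg' ih
  exact (c_perm_app hf' h).length_eq

lemma te_refl {A : Type} (x : ℕ → A) : TE x x := ⟨0, 0, fun _ => rfl⟩

lemma te_trans {A : Type} {x y z : ℕ → A} (h1 : TE x y) (h2 : TE y z) : TE x z := by
  obtain ⟨i, j, h⟩ := h1
  obtain ⟨i', j', h'⟩ := h2
  refine ⟨i + i', j' + j, fun k => ?_⟩
  have e1 := h (i' + k)
  have e2 := h' (j + k)
  rw [show i + i' + k = i + (i' + k) by ring, e1, show j + (i' + k) = i' + (j + k) by ring, e2]
  congr 1
  ring

lemma c_iter {A : Type} (g : A → List A) (n : ℕ) (w : List A) :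
    (app g)^[n] w = w.flatMap (fun c => (app g)^[n] [c]) := by
  induction n generalizing w with
  | zero => simp
  | succ n ih =>
    rw [Function.iterate_succ_apply, ih]
    have h : (fun c => (app g)^[n + 1] [c]) = fun c => (g c).flatMap (fun d => (app g)^[n] [d]) := by
      funext c
      rw [Function.iterate_succ_apply, ih, c_app_sing]
    rw [h, app, List.flatMap_assoc]

/-- Covering by palindromes; only nonempty blocks at late positions matter. -/
def CoverSt2 : Prop := ∀ (B C : Type) [Finite B] (v : ℕ → B) (g g' : B → List B)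
  (f f' : B → List C) (y : ℕ → C), IsImage g v v → Conjugate g g' → ClassP g' →
  Conjugate f f' → ClassP f' → IsImage f v y → ∀ n N,
  (∀ i, N ≤ i → (app f ((app g)^[n] [v i])).length ≠ 1) →
  ∃ J L : ℕ, ∀ j, J ≤ j → ∃ a b : ℕ, a ≤ j ∧ j < b ∧ a + 2 ≤ b ∧ b ≤ a + L ∧
    ∀ i, i < b - a → y (a + i) = y (b - 1 - i)

theorem cover (hpos : PosSt) (hconj : TEConjSt) (hmap : TEMapSt)
    (hcomp : CompSt) (hdec : DecompSt) : CoverSt2 := by
  classical
  intro B C _ v g g' f f' y hv hgg hg' hff hf' hy n N hlen
  set K : ℕ → B → List C := fun n b => app f' ((app g')^[n] [b]) with hKdef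
  have hK0 : K 0 = f' := by
    funext b; simp [hKdef, c_app_sing]
  have hKs : ∀ n, K (n + 1) = fun a => app (K n) (g' a) := by
    intro n
    funext b
    simp only [hKdef]
    rw [Function.iterate_succ_apply, c_iter, c_app_sing]
    simp only [app, List.flatMap_assoc]
  -- good
  have hgood : ∀ n, ∃ P, Good (K n) P := by
    intro n
    induction n with
    | zero => rw [hK0]; exact goodBase hpos B C f' hf'
    | succ n ih =>
      obtain ⟨P, hP⟩ := ih
      rw [hKs]
      exact goodStep hpos hdec B B C g' (K n) P hg' hP
  -- tails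
  have hte : ∀ n (x : ℕ → B), TE x v → ∃ Y, IsImage (K n) x Y ∧ TE Y y := by
    intro n
    induction n with
    | zero =>
      intro x hx
      rw [hK0]
      obtain ⟨y1, h1, h2⟩ := hconj B C f f' v y hff hy
      obtain ⟨y2, h3, h4⟩ := hmap B C f' v x y1 hx h1
      exact ⟨y2, h3, te_trans h4 h2⟩
    | succ n ih =>
      intro x hx
      obtain ⟨v1, h1, h2⟩ := hconj B B g g' v v hgg hv
      obtain ⟨X, h3, h4⟩ := hmap B B g' v x v1 hx h1
      obtain ⟨Y, h5, h6⟩ := ih X (te_trans h4 h2)
      refine ⟨Y, ?_, h6⟩
      rw [hKs]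
      exact hcomp B B C g' (K n) x X Y h3 h5
  obtain ⟨P, hPr, hPal, hPT⟩ := hgood n
  obtain ⟨Y, hY, i0, j0, hTE⟩ := hte n v (te_refl v)
  have hlen2 : ∀ i, N ≤ i → (K n (v i)).length ≠ 1 := by
    intro i hi
    have := len B C g g' f f' hgg hff n (v i)
    simp only [hKdef]
    rw [this]
    exact hlen i hi
  obtain ⟨M, hM⟩ : ∃ M, ∀ b, (K n b).length ≤ M := by
    have := Fintype.ofFinite B
    exact ⟨∑ b, (K n b).length, fun b =>
      Finset.single_le_sum (f := fun b => (K n b).length) (fun _ _ => Nat.zero_le _)
        (Finset.mem_univ b)⟩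
  set pos : ℕ → ℕ := fun m => (app (K n) (slice v 0 m)).length with hposdef
  have pos0 : pos 0 = 0 := by simp [hposdef, slice, app]
  have poss : ∀ m, pos (m + 1) = pos m + (K n (v m)).length := by
    intro m
    simp only [hposdef]
    rw [c_add, c_app, List.length_append]
    congr 1
    simp [slice, app]
  have posmono : Monotone pos := monotone_nat_of_le_succ (fun m => by rw [poss]; omega)
  refine ⟨j0 + M + P.length + i0 + pos N, M + P.length, ?_⟩
  intro j hj
  set q := i0 + (j - j0) with hq
  have hexm : ∃ m, q < pos (m + 1) := by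
    obtain ⟨m, hm⟩ := hY.2 (q + 1)
    have h1 : pos m ≤ pos (m + 1) := posmono (Nat.le_succ m)
    have h2 : q + 1 ≤ pos m := hm
    exact ⟨m, by omega⟩
  obtain ⟨m, hm1, hm2⟩ : ∃ m, pos m ≤ q ∧ q < pos (m + 1) := by
    refine ⟨Nat.find hexm, ?_, Nat.find_spec hexm⟩
    rcases Nat.eq_zero_or_pos (Nat.find hexm) with h0 | h0
    · rw [h0, pos0]; exact Nat.zero_le _
    · have := Nat.find_min hexm (show Nat.find hexm - 1 < Nat.find hexm by omega)
      rw [show Nat.find hexm - 1 + 1 = Nat.find hexm by omega] at this
      omega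
  -- the palindrome
  have hblock := (hpos B C (K n) v Y hY m).1
  have htail := (hpos B C (K n) v Y hY (m + 1)).2
  have hPs := hPT _ _ htail
  rw [c_shift, Nat.add_zero] at hPs
  change slice Y (pos m) (K n (v m)).length = K n (v m) at hblock
  change slice Y (pos (m + 1)) P.length = P at hPs
  set l := (K n (v m)).length with hl
  have hsl : slice Y (pos m) (l + P.length) = K n (v m) ++ P := by
    rw [c_add, hblock, ← poss, hPs]
  have hpal : (slice Y (pos m) (l + P.length)).reverse = slice Y (pos m) (l + P.length) := by
    rw [hsl]; exact hPal _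
  have hsym : ∀ i, i < l + P.length → Y (pos m + i) = Y (pos m + (l + P.length - 1 - i)) := by
    intro i hi
    have h1 : i < (slice Y (pos m) (l + P.length)).length := by rw [c_len]; exact hi
    have h2 : (slice Y (pos m) (l + P.length))[i] =
        (slice Y (pos m) (l + P.length)).reverse[i]'(by rw [List.length_reverse]; exact h1) := by
      congr 1
      exact hpal.symm
    rw [List.getElem_reverse, c_get, c_get] at h2
    rw [h2, c_len]
  have hlM : l ≤ M := hM _
  have hmN : N ≤ m := by
    by_contra hcon
    have h1 : pos (m + 1) ≤ pos N := posmono (by omega)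
    omega
  have hl2 : 2 ≤ l := by
    have h1 := hlen2 m hmN
    have h2 : pos (m + 1) = pos m + l := poss m
    omega
  have hpm : pos (m + 1) = pos m + l := poss m
  have hi0 : i0 ≤ pos m := by omega
  refine ⟨pos m - i0 + j0, pos m - i0 + j0 + (l + P.length), by omega, by omega, by omega,
    by omega, ?_⟩
  intro i hi
  have hi' : i < l + P.length := by omega
  have e1 : y (pos m - i0 + j0 + i) = Y (pos m + i) := by
    have := hTE (pos m - i0 + i)
    rw [show i0 + (pos m - i0 + i) = pos m + i by omega,
      show j0 + (pos m - i0 + i) = pos m - i0 + j0 + i by omega] at this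
    exact this.symm
  have e2 : y (pos m - i0 + j0 + (l + P.length) - 1 - i) = Y (pos m + (l + P.length - 1 - i)) := by
    have := hTE (pos m - i0 + (l + P.length - 1 - i))
    rw [show i0 + (pos m - i0 + (l + P.length - 1 - i)) = pos m + (l + P.length - 1 - i) by omega,
      show j0 + (pos m - i0 + (l + P.length - 1 - i)) =
        pos m - i0 + j0 + (l + P.length) - 1 - i by omega] at this
    exact this.symm
  rw [e1, e2]
  exact hsym i hi'

end Pool.Agent.H23.HKS
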