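import Mathlib

/-!
# Definitions for the weak form of the class P question (MP_6957f6_co, Q2)
-/

namespace Pool.Agent.H23.HKS

/-- The extension of a morphism `f` (given by the images of the letters) to finite words. -/
def app {A B : Type} (f : A → List B) (w : List A) : List B := w.flatMap f

/-- The factor of length `n` of the infinite word `u` starting at position `i`. -/
def slice {A : Type} (u : ℕ → A) (i n : ℕ) : List A := (List.range n).map (fun k => u (i + k))

/-- The language of an infinite word: the set of its finite factors. -/
def Lang {A : Type} (u : ℕ → A) : Set (List A) := {w | ∃ i n, w = slice u i n}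

/-- `f (x) = y` as infinite words: the image of every prefix of `x` is a prefix of `y`, and the
images of the prefixes of `x` have unbounded length. -/
def IsImage {A B : Type} (f : A → List B) (x : ℕ → A) (y : ℕ → B) : Prop :=
  (∀ n, ∃ m, app f (slice x 0 n) = slice y 0 m) ∧
    (∀ m, ∃ n, m ≤ (app f (slice x 0 n)).length)

/-- `f` is primitive: for some `k ≥ 1` every letter occurs in `f ^ k (a)` for every letter `a`. -/
def IsPrimitive {A : Type} (f : A → List A) : Prop :=
  ∃ k, 1 ≤ k ∧ ∀ a b : A, b ∈ (app f)^[k] [a]

/-- An infinite word is palindromic if infinitely many distinct palindromes occur in it. -/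
def IsPalindromic {A : Type} (u : ℕ → A) : Prop :=
  {w | w ∈ Lang u ∧ w.reverse = w}.Infinite

/-- A primitive morphic word: the image by a morphism `m` of a fixed point `v` of a primitive
morphism `f` of a finite alphabet. -/
def IsPrimitiveMorphic {B : Type} (u : ℕ → B) : Prop :=
  ∃ (A : Type) (_ : Finite A) (f : A → List A) (v : ℕ → A) (m : A → List B),
    IsPrimitive f ∧ IsImage f v v ∧ IsImage m v u

/-- Class `P`: there is a palindrome `p` such that for every letter `a`, `p` is a prefix of
`f (a)` and `f (a) p` is a palindrome. -/
def ClassP {A B : Type} (f : A → List B) : Prop :=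
  ∃ p : List B, p.reverse = p ∧ ∀ a, p <+: f a ∧ (f a ++ p).reverse = f a ++ p

/-- Conjugate morphisms. -/
def Conjugate {A B : Type} (f g : A → List B) : Prop :=
  (∃ w : List B, ∀ a, f a ++ w = w ++ g a) ∨ (∃ w : List B, ∀ a, g a ++ w = w ++ f a)

/-- The morphism `a ↦ aaba`, `b ↦ babb` (`a = true`, `b = false`). -/
def phi0 (c : Bool) : List Bool := [c, true, false, c]

/-- The morphism `a ↦ 012`, `b ↦ 210`. -/
def mu (c : Bool) : List (Fin 3) := if c then [0, 1, 2] else [2, 1, 0]

/-- The fixed point of `phi0` starting with `a`. -/
def V (n : ℕ) : Bool :=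
  if n = 0 then true else if n % 4 = 1 then true else if n % 4 = 2 then false else V (n / 4)
termination_by n
decreasing_by omega

/-- The letter number `r` of `mu c`. -/
def cod (c : Bool) (r : ℕ) : Fin 3 := if r = 1 then 1 else if (r = 0) = (c = true) then 0 else 2

/-- The word `u = mu (V)`. -/
def u (n : ℕ) : Fin 3 := cod (V (n / 3)) (n % 3)

/-- The two-sided fixed point `... phi0^n (a) . phi0^n (a) ...`. -/
def s (n : ℤ) : Bool :=
  if n = 0 ∨ n = -1 then true else if n % 4 = 1 then true else if n % 4 = 2 then false
    else s (n / 4)
termination_by n.natAbs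
decreasing_by omega

/-- The two-sided word `mu (s)`. -/
def S (n : ℤ) : Fin 3 := cod (s (n / 3)) (n % 3).toNat

/-- Two infinite words agree up to deleting prefixes. -/
def TE {A : Type} (x y : ℕ → A) : Prop := ∃ i j, ∀ k, x (i + k) = y (j + k)

/-- `K` behaves like a class P morphism with palindrome `P`. -/
def Good {A B : Type} (K : A → List B) (P : List B) : Prop :=
  P.reverse = P ∧ (∀ a, (K a ++ P).reverse = K a ++ P) ∧
    ∀ x y, IsImage K x y → slice y 0 P.length = P

end Pool.Agent.H23.HKS
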