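import Pool.Agent.H23.HKS.Spec2
import Pool.Agent.H23.HKS.Cover

/-!
# HKS2-4: expanding letters with an idempotent tail give periodic windows
-/

namespace Pool.Agent.H23.HKS

private lemma e_factor {A : Type} (u : ℕ → A) {a w b : List A} (h : a ++ w ++ b ∈ Lang u) :
    w ∈ Lang u := by
  obtain ⟨i, n, h⟩ := h
  have hn : n = a.length + w.length + b.length := by
    have h1 := congrArg List.length h
    rw [c_len, List.length_append, List.length_append] at h1
    exact h1.symm
  rw [hn, c_add, c_add] at h
  have h1 := List.append_inj_left h (by simp [c_len])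
  have h2 := List.append_inj_right h1 (by simp [c_len])
  exact ⟨i + a.length, w.length, h2⟩

private lemma e_app {B : Type} {h : B → List B} {v : ℕ → B} (hv : IsImage h v v) {w : List B}
    (hw : w ∈ Lang v) : app h w ∈ Lang v := by
  obtain ⟨i, n, rfl⟩ := hw
  obtain ⟨m, hm⟩ := hv.1 (i + n)
  rw [c_add, c_app, Nat.zero_add] at hm
  refine e_factor v (a := app h (slice v 0 i)) (b := []) ?_
  rw [List.append_nil, hm]
  exact ⟨0, m, rfl⟩

private def pw {B : Type} (w : List B) (n : ℕ) : List B := (List.replicate n w).flatten

private lemma pw_zero {B : Type} (w : List B) : pw w 0 = [] := by simp [pw]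

private lemma pw_left {B : Type} (w : List B) (n : ℕ) : pw w (n + 1) = w ++ pw w n := by
  simp [pw, List.replicate_succ]

private lemma pw_right {B : Type} (w : List B) (n : ℕ) : pw w (n + 1) = pw w n ++ w := by
  induction n with
  | zero => rw [pw_left, pw_zero]; simp
  | succ n ih =>
    rw [pw_left, ih, ← List.append_assoc, ← pw_left, ih]

private lemma pw_len {B : Type} (w : List B) (n : ℕ) : (pw w n).length = n * w.length := by
  induction n with
  | zero => simp [pw_zero]
  | succ n ih => rw [pw_left, List.length_append, ih]; ring

private lemma pw_app {B : Type} (h : B → List B) (w : List B) (n : ℕ) :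
    app h (pw w n) = pw (app h w) n := by
  induction n with
  | zero => simp [pw_zero, app]
  | succ n ih => rw [pw_left, c_app, ih, pw_left]

private lemma e_window {B : Type} (v : ℕ → B) (w : List B) (hw : 1 ≤ w.length)
    (hL : ∀ n, pw w n ∈ Lang v) :
    ∀ R, ∃ i, ∀ k, k < R → v (i + k) = v (i + k + w.length) := by
  intro R
  obtain ⟨i, m, hm⟩ := hL (R + 1)
  have hlen : m = R * w.length + w.length := by
    have h1 := congrArg List.length hm
    rw [c_len, pw_len] at h1
    rw [← h1]; ring
  have h1 : pw w R = slice v i (R * w.length) := by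
    have h2 := hm
    rw [hlen, c_add, pw_right] at h2
    exact List.append_inj_left h2 (by rw [c_len, pw_len])
  have h3 : pw w R = slice v (i + w.length) (R * w.length) := by
    have h2 := hm
    rw [hlen, Nat.add_comm (R * w.length), c_add, pw_left] at h2
    exact List.append_inj_right h2 (by rw [c_len])
  refine ⟨i, fun k hk => ?_⟩
  have hk2 : k < R * w.length := lt_of_lt_of_le hk (Nat.le_mul_of_pos_right R hw)
  have h4 : slice v i (R * w.length) = slice v (i + w.length) (R * w.length) := by
    rw [← h1, ← h3]
  have h5 : (slice v i (R * w.length))[k]'(by rw [c_len]; exact hk2) =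
      (slice v (i + w.length) (R * w.length))[k]'(by rw [c_len]; exact hk2) := by
    congr 1
  rw [c_get, c_get] at h5
  rw [h5]
  congr 1
  omega

private lemma e_idem {B : Type} {h : B → List B} {s : List B} (hs : ∀ e ∈ s, DD h e) :
    app h (app h s) = app h s := by
  induction s with
  | nil => simp [app]
  | cons e s ih =>
    have h1 : app h (e :: s) = h e ++ app h s := by simp [app]
    rw [h1, c_app, ih (fun a ha => hs a (List.mem_cons_of_mem _ ha)),
      show app h (h e) = h e from hs e List.mem_cons_self]

private lemma e_pos {B : Type} {h : B → List B} (hne : NE h) {s : List B} (hs : s ≠ []) :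
    1 ≤ (app h s).length := by
  cases s with
  | nil => exact absurd rfl hs
  | cons e s =>
    have h1 : app h (e :: s) = h e ++ app h s := by simp [app]
    rw [h1, List.length_append]
    have := List.length_pos_iff.2 (hne e)
    omega

theorem expPer : ExpSt := by
  intro B h v j hne hv hj
  have hit : ∀ n, (app h)^[n] [v j] ∈ Lang v := by
    intro n
    induction n with
    | zero => exact ⟨j, 1, by simp [slice]⟩
    | succ n ih => rw [Function.iterate_succ_apply']; exact e_app hv ih
  rcases hj with ⟨_, x, s, hd, hs, hD⟩ | ⟨_, x, s, hd, hs, hD⟩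
  · refine ⟨(app h s).length, e_pos hne hs, e_window v (app h s) (e_pos hne hs) ?_⟩
    have key : ∀ n, ∃ y, (app h)^[n + 1] [v j] = y ++ v j :: (s ++ pw (app h s) n) := by
      intro n
      induction n with
      | zero => exact ⟨x, by simp [pw_zero, app, hd]⟩
      | succ n ih =>
        obtain ⟨y, hy⟩ := ih
        refine ⟨app h y ++ x, ?_⟩
        rw [Function.iterate_succ_apply', hy, c_app]
        have h1 : app h (v j :: (s ++ pw (app h s) n)) =
            h (v j) ++ (app h s ++ pw (app h (app h s)) n) := by
          rw [← pw_app h (app h s) n]; simp [app]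
        rw [h1, e_idem hD, hd, pw_left]
        simp
    intro n
    obtain ⟨y, hy⟩ := key n
    refine e_factor v (a := y ++ v j :: s) (b := []) ?_
    have h1 : y ++ v j :: s ++ pw (app h s) n ++ [] = y ++ v j :: (s ++ pw (app h s) n) := by
      simp
    rw [h1, ← hy]
    exact hit _
  · refine ⟨(app h s).length, e_pos hne hs, e_window v (app h s) (e_pos hne hs) ?_⟩
    have key : ∀ n, ∃ y, (app h)^[n + 1] [v j] = pw (app h s) n ++ (s ++ v j :: y) := by
      intro n
      induction n with
      | zero => exact ⟨x, by simp [pw_zero, app, hd]⟩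
      | succ n ih =>
        obtain ⟨y, hy⟩ := ih
        refine ⟨x ++ app h y, ?_⟩
        rw [Function.iterate_succ_apply', hy, c_app, c_app, pw_app, e_idem hD]
        have h1 : app h (v j :: y) = h (v j) ++ app h y := by simp [app]
        rw [h1, hd, pw_right]
        simp
    intro n
    obtain ⟨y, hy⟩ := key n
    refine e_factor v (a := []) (b := s ++ v j :: y) ?_
    rw [List.nil_append, ← hy]
    exact hit _

end Pool.Agent.H23.HKS
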