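import Pool.Agent.H23.HKS.Cover

/-!
# The contradiction
-/

namespace Pool.Agent.H23.HKS

theorem final (hhole : HoleSt) (hlate : LateSt) (hcov : CoverSt2) (B : Type) [Finite B]
    (v : ℕ → B) (g g' : B → List B) (f f' : B → List (Fin 3)) (y : ℕ → Fin 3)
    (hv : IsImage g v v) (h1 : Conjugate g g') (h2 : ClassP g') (h3 : Conjugate f f')
    (h4 : ClassP f') (hy : IsImage f v y) (hL : Lang y = Lang u) (n N : ℕ)
    (hn : ∀ i, N ≤ i → (app f ((app g)^[n] [v i])).length ≠ 1) : False := by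
  obtain ⟨J, L, hJL⟩ := hcov B (Fin 3) v g g' f f' y hv h1 h2 h3 h4 hy n N hn
  obtain ⟨j, hj, hjR, hS⟩ := hlate y hL (L + 1) J
  obtain ⟨a, b, ha, hb, hab, hbL, hsym⟩ := hJL j hj
  refine hhole ((a : ℤ) - j) ((b : ℤ) - j) (by omega) (by omega) (by omega) ?_
  intro i hi1 hi2
  have e1 := hS i (by omega) (by omega)
  have e2 := hS ((a : ℤ) - j + (b - j) - 1 - i) (by omega) (by omega)
  rw [← e1, ← e2]
  obtain ⟨k, hk⟩ : ∃ k : ℕ, (j : ℤ) + i = a + k := ⟨((j : ℤ) + i - a).toNat, by omega⟩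
  have e3 : ((j : ℤ) + i).toNat = a + k := by omega
  have e4 : ((j : ℤ) + ((a : ℤ) - j + (b - j) - 1 - i)).toNat = b - 1 - k := by omega
  rw [e3, e4]
  exact hsym k (by omega)

end Pool.Agent.H23.HKS
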