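import Pool.Agent.H23.HKS.Spec

/-!
# Statements of the rows HKS2-1 .. HKS2-6 (nonerasing morphisms, all solutions are degenerate)
-/

namespace Pool.Agent.H23.HKS

/-- HKS2-1: a palindrome of `S` which meets `[0, 3 * 4^K)` has length at most `3 * 4^K`. -/
def HoleSt2 : Prop := ∀ (K : ℕ) (a b t : ℤ), 0 ≤ t → t < 3 * 4 ^ K → a ≤ t → t < b →
  (∀ i, a ≤ i → i < b → S i = S (a + b - 1 - i)) → b - a ≤ 3 * 4 ^ K

/-- HKS2-2: `u` has no long windows of period `p`. -/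
def AperSt : Prop := ∀ p, 1 ≤ p → ∃ R, ∀ i, ∃ k, k < R ∧ u (i + k) ≠ u (i + k + p)

/-- `h` maps no letter to the empty word. -/
def NE {A B : Type} (h : A → List B) : Prop := ∀ c, h c ≠ []

/-- The letters on which `h` is idempotent. -/
def DD {B : Type} (h : B → List B) (c : B) : Prop := app h (h c) = h c

/-- The power of `g` used below. -/
def Idem {B : Type} (h : B → List B) : Prop :=
  (∀ c, ¬ DD h c → ∀ L, ∃ n, L ≤ ((app h)^[n] [c]).length) ∧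
  (∀ c x d s, h c = x ++ d :: s → ¬ DD h d → (∀ e ∈ s, DD h e) →
    ∃ x' s', h d = x' ++ d :: s' ∧ ∀ e ∈ s', DD h e) ∧
  (∀ c x d s, h c = s ++ d :: x → ¬ DD h d → (∀ e ∈ s, DD h e) →
    ∃ x' s', h d = s' ++ d :: x' ∧ ∀ e ∈ s', DD h e)

/-- HKS2-3 -/
def IdemSt : Prop := ∀ (B : Type) [Finite B] (g : B → List B), NE g →
  ∃ P, 1 ≤ P ∧ Idem (fun c => (app g)^[P] [c])

/-- `h d = x d s`, `s` a nonempty word of idempotent letters. -/
def RExp {B : Type} (h : B → List B) (d : B) : Prop :=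
  ¬ DD h d ∧ ∃ x s, h d = x ++ d :: s ∧ s ≠ [] ∧ ∀ e ∈ s, DD h e

/-- `h d = s d x`, `s` a nonempty word of idempotent letters. -/
def LExp {B : Type} (h : B → List B) (d : B) : Prop :=
  ¬ DD h d ∧ ∃ x s, h d = s ++ d :: x ∧ s ≠ [] ∧ ∀ e ∈ s, DD h e

/-- HKS2-4 -/
def ExpSt : Prop := ∀ (B : Type) (h : B → List B) (v : ℕ → B) (j : ℕ), NE h → IsImage h v v →
  (RExp h (v j) ∨ LExp h (v j)) → ∃ p, 1 ≤ p ∧ ∀ R, ∃ i, ∀ k, k < R → v (i + k) = v (i + k + p)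

/-- HKS2-5 -/
def GapSt : Prop := ∀ (B : Type) [Finite B] (h : B → List B) (v : ℕ → B), NE h → Idem h →
  IsImage h v v → (∃ i, ¬ DD h (v i)) → (∀ j, ¬ RExp h (v j) ∧ ¬ LExp h (v j)) →
  ∃ R, ∀ i, ∃ k, k < R ∧ ¬ DD h (v (i + k))

/-- HKS2-6: periodic windows of `v` give periodic windows of `f (v)`. -/
def PerSt : Prop := ∀ (B C : Type) [Finite B] (f : B → List C) (v : ℕ → B) (y : ℕ → C), NE f →
  IsImage f v y → (∃ p, 1 ≤ p ∧ ∀ R, ∃ i, ∀ k, k < R → v (i + k) = v (i + k + p)) →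
  ∃ p, 1 ≤ p ∧ ∀ R, ∃ i, ∀ k, k < R → y (i + k) = y (i + k + p)

end Pool.Agent.H23.HKS
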