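import Pool.Agent.H23.HKS.Cover
import Pool.Agent.H23.HKS.Spec2

/-!
# The sharp form: the contradiction for nonerasing morphisms
-/

namespace Pool.Agent.H23.HKS

/-- The chain of images, extracted from `cover`. -/
theorem chain (hpos : PosSt) (hconj : TEConjSt) (hmap : TEMapSt) (hcomp : CompSt)
    (hdec : DecompSt) (B C : Type) [Finite B] (v : ℕ → B) (g g' : B → List B)
    (f f' : B → List C) (y : ℕ → C) (hv : IsImage g v v) (hgg : Conjugate g g')
    (hg' : ClassP g') (hff : Conjugate f f') (hf' : ClassP f') (hy : IsImage f v y) (n : ℕ) :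
    ∃ (P : List C) (Y : ℕ → C) (i0 j0 : ℕ), Good (fun b => app f' ((app g')^[n] [b])) P ∧
      IsImage (fun b => app f' ((app g')^[n] [b])) v Y ∧ ∀ k, Y (i0 + k) = y (j0 + k) := by
  classical
  set K : ℕ → B → List C := fun n b => app f' ((app g')^[n] [b]) with hKdef
  have hK0 : K 0 = f' := by
    funext b; simp [hKdef, c_app_sing]
  have hKs : ∀ n, K (n + 1) = fun a => app (K n) (g' a) := by
    intro n
    funext b
    simp only [hKdef]
    rw [Function.iterate_succ_apply, c_iter, c_app_sing]
    simp only [app, List.flatMap_assoc]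
  have hgood : ∀ n, ∃ P, Good (K n) P := by
    intro n
    induction n with
    | zero => rw [hK0]; exact goodBase hpos B C f' hf'
    | succ n ih =>
      obtain ⟨P, hP⟩ := ih
      rw [hKs]
      exact goodStep hpos hdec B B C g' (K n) P hg' hP
  have hte : ∀ n (x : ℕ → B), TE x v → ∃ Y, IsImage (K n) x Y ∧ TE Y y := by
    intro n
    induction n with
    | zero =>
      intro x hx
      rw [hK0]
      obtain ⟨y1, h1, h2⟩ := hconj B C f f' v y hff hy
      obtain ⟨y2, h3, h4⟩ := hmap B C f' v x y1 hx h1
      exact ⟨y2, h3, te_trans h4 h2⟩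
    | succ n ih =>
      intro x hx
      obtain ⟨v1, h1, h2⟩ := hconj B B g g' v v hgg hv
      obtain ⟨X, h3, h4⟩ := hmap B B g' v x v1 hx h1
      obtain ⟨Y, h5, h6⟩ := ih X (te_trans h4 h2)
      refine ⟨Y, ?_, h6⟩
      rw [hKs]
      exact hcomp B B C g' (K n) x X Y h3 h5
  obtain ⟨P, hP⟩ := hgood n
  obtain ⟨Y, hY, i0, j0, hTE⟩ := hte n v (te_refl v)
  exact ⟨P, Y, i0, j0, hP, hY, hTE⟩

lemma f2_len_app {A B : Type} {h : A → List B} (hne : NE h) (w : List A) :
    w.length ≤ (app h w).length := by
  induction w with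
  | nil => simp
  | cons a w ih =>
    have e1 : app h (a :: w) = h a ++ app h w := by simp [app]
    have h2 : 1 ≤ (h a).length := List.length_pos_iff.2 (hne a)
    rw [e1, List.length_append, List.length_cons]
    omega

lemma f2_mono {B : Type} {g : B → List B} (hne : NE g) (w : List B) {m n : ℕ} (hmn : m ≤ n) :
    ((app g)^[m] w).length ≤ ((app g)^[n] w).length := by
  induction n, hmn using Nat.le_induction with
  | base => exact le_rfl
  | succ n _ ih =>
    rw [Function.iterate_succ_apply']
    exact ih.trans (f2_len_app hne _)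

lemma f2_iter_pow {B : Type} (g : B → List B) (P n : ℕ) (w : List B) :
    (app (fun c => (app g)^[P] [c]))^[n] w = (app g)^[P * n] w := by
  induction n generalizing w with
  | zero => simp
  | succ n ih =>
    rw [Function.iterate_succ_apply, ih, Nat.mul_succ, Function.iterate_add_apply]
    congr 1
    exact (c_iter g P w).symm

/-- Palindromic blocks of the image. -/
theorem f2_block (hpos : PosSt) {B C : Type} {K : B → List C} {P : List C} (hG : Good K P)
    {v : ℕ → B} {Y : ℕ → C} (hY : IsImage K v Y) (m i : ℕ)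
    (hi : i < (K (v m)).length + P.length) :
    Y ((app K (slice v 0 m)).length + i) =
      Y ((app K (slice v 0 m)).length + ((K (v m)).length + P.length - 1 - i)) := by
  obtain ⟨hPr, hPal, hPT⟩ := hG
  have hblock := (hpos B C K v Y hY m).1
  have htail := (hpos B C K v Y hY (m + 1)).2
  have hPs := hPT _ _ htail
  rw [c_shift, Nat.add_zero] at hPs
  have hps : (app K (slice v 0 (m + 1))).length =
      (app K (slice v 0 m)).length + (K (v m)).length := by
    rw [c_add, c_app, List.length_append]
    congr 1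
    simp [slice, app]
  rw [hps] at hPs
  set q := (app K (slice v 0 m)).length with hq
  set l := (K (v m)).length with hl
  have hsl : slice Y q (l + P.length) = K (v m) ++ P := by
    rw [c_add, hblock, hPs]
  have hpal : (slice Y q (l + P.length)).reverse = slice Y q (l + P.length) := by
    rw [hsl]; exact hPal _
  have h1 : i < (slice Y q (l + P.length)).length := by rw [c_len]; exact hi
  have h2 : (slice Y q (l + P.length))[i] =
      (slice Y q (l + P.length)).reverse[i]'(by rw [List.length_reverse]; exact h1) := by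
    congr 1
    exact hpal.symm
  rw [List.getElem_reverse, c_get, c_get] at h2
  rw [h2, c_len]

theorem finalGap (hhole2 : HoleSt2) (hlate : LateSt) (hpos : PosSt) (hconj : TEConjSt)
    (hmap : TEMapSt) (hcomp : CompSt) (hdec : DecompSt) (B : Type) [Finite B]
    (v : ℕ → B) (g g' : B → List B) (f f' : B → List (Fin 3)) (y : ℕ → Fin 3)
    (hv : IsImage g v v) (h1 : Conjugate g g') (h2 : ClassP g') (h3 : Conjugate f f')
    (h4 : ClassP f') (hy : IsImage f v y) (hL : Lang y = Lang u) (hneg : NE g) (hnef : NE f)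
    (Pw : ℕ) (hId : Idem (fun c => (app g)^[Pw] [c]))
    (hgap : ∃ R, ∀ i, ∃ k, k < R ∧ ¬ DD (fun c => (app g)^[Pw] [c]) (v (i + k))) : False := by
  classical
  have := Fintype.ofFinite B
  set h : B → List B := fun c => (app g)^[Pw] [c] with hh
  obtain ⟨R0, hR0⟩ := hgap
  have hneh : NE h := by
    intro c hc
    have h5 := f2_mono hneg [c] (Nat.zero_le Pw)
    have h6 : (h c).length = 0 := by rw [hc]; rfl
    simp only [hh] at h6
    rw [h6] at h5
    simp at h5
  -- bounds
  set m0 : ℕ := ∑ c, (app f (h c)).length with hm0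
  have hm0c : ∀ c, (app f (h c)).length ≤ m0 := fun c =>
    Finset.single_le_sum (f := fun c => (app f (h c)).length) (fun _ _ => Nat.zero_le _)
      (Finset.mem_univ c)
  obtain ⟨K0, hK0⟩ : ∃ K0 : ℕ, R0 * m0 < 3 * 4 ^ K0 := by
    refine ⟨R0 * m0, ?_⟩
    have : R0 * m0 < 4 ^ (R0 * m0) := Nat.lt_pow_self (by norm_num)
    omega
  -- the exponent
  obtain ⟨n, hn1, hn⟩ : ∃ n, 1 ≤ n ∧ ∀ c, ¬ DD h c → 3 * 4 ^ K0 < ((app h)^[n] [c]).length := by
    have h5 : ∀ c, ∃ n, ¬ DD h c → 3 * 4 ^ K0 + 1 ≤ ((app h)^[n] [c]).length := by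
      intro c
      by_cases hc : DD h c
      · exact ⟨0, fun h => absurd hc h⟩
      · obtain ⟨n, hn⟩ := hId.1 c hc (3 * 4 ^ K0 + 1)
        exact ⟨n, fun _ => hn⟩
    choose N hN using h5
    refine ⟨∑ c, N c + 1, by omega, fun c hc => ?_⟩
    have h6 : N c ≤ ∑ c, N c + 1 := by
      have := Finset.single_le_sum (f := N) (fun _ _ => Nat.zero_le _) (Finset.mem_univ c)
      omega
    have h7 := f2_mono hneh [c] h6
    have h8 := hN c hc
    omega
  have hDn : ∀ c, DD h c → (app h)^[n] [c] = h c := by
    intro c hc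
    obtain ⟨k, rfl⟩ : ∃ k, n = k + 1 := ⟨n - 1, by omega⟩
    clear hn hn1
    induction k with
    | zero => simp [c_app_sing]
    | succ k ih =>
      rw [Function.iterate_succ_apply', ih]
      exact hc
  obtain ⟨P, Y, i0, j0, hG, hY, hTE⟩ := chain hpos hconj hmap hcomp hdec B (Fin 3) v g g' f f' y
    hv h1 h2 h3 h4 hy (Pw * n)
  set K : B → List (Fin 3) := fun b => app f' ((app g')^[Pw * n] [b]) with hK
  have hKlen : ∀ c, (K c).length = (app f ((app h)^[n] [c])).length := by
    intro c
    have := len B (Fin 3) g g' f f' h1 h3 (Pw * n) c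
    simp only [hK]
    rw [this, hh, f2_iter_pow]
  have hKD : ∀ c, DD h c → (K c).length ≤ m0 := by
    intro c hc
    rw [hKlen, hDn c hc]
    exact hm0c c
  have hKN : ∀ c, ¬ DD h c → 3 * 4 ^ K0 < (K c).length := by
    intro c hc
    rw [hKlen]
    exact (hn c hc).trans_le (f2_len_app hnef _)
  obtain ⟨M, hM⟩ : ∃ M, ∀ b, (K b).length ≤ M :=
    ⟨∑ b, (K b).length, fun b =>
      Finset.single_le_sum (f := fun b => (K b).length) (fun _ _ => Nat.zero_le _)
        (Finset.mem_univ b)⟩
  set pos : ℕ → ℕ := fun m => (app K (slice v 0 m)).length with hposdef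
  have pos0 : pos 0 = 0 := by simp [hposdef, slice, app]
  have poss : ∀ m, pos (m + 1) = pos m + (K (v m)).length := by
    intro m
    simp only [hposdef]
    rw [c_add, c_app, List.length_append]
    congr 1
    simp [slice, app]
  have posmono : Monotone pos := monotone_nat_of_le_succ (fun m => by rw [poss]; omega)
  -- a late hole
  set W : ℕ := 3 * 4 ^ K0 + M + P.length + 1 with hW
  obtain ⟨j, hjJ, hjR, hS⟩ := hlate y hL W (j0 + W)
  set q := i0 + (j - j0) with hq
  have hexm : ∃ m, q < pos (m + 1) := by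
    obtain ⟨m, hm⟩ := hY.2 (q + 1)
    have h1 : pos m ≤ pos (m + 1) := posmono (Nat.le_succ m)
    have h2 : q + 1 ≤ pos m := hm
    exact ⟨m, by omega⟩
  obtain ⟨m, hm1, hm2⟩ : ∃ m, pos m ≤ q ∧ q < pos (m + 1) := by
    refine ⟨Nat.find hexm, ?_, Nat.find_spec hexm⟩
    rcases Nat.eq_zero_or_pos (Nat.find hexm) with h0 | h0
    · rw [h0, pos0]; exact Nat.zero_le _
    · have := Nat.find_min hexm (show Nat.find hexm - 1 < Nat.find hexm by omega)
      rw [show Nat.find hexm - 1 + 1 = Nat.find hexm by omega] at this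
      omega
  -- the first non-idempotent letter
  have hexk : ∃ k, ¬ DD h (v (m + k)) := by
    obtain ⟨k, _, hk⟩ := hR0 m
    exact ⟨k, hk⟩
  obtain ⟨k, hk, hkmin, hkR⟩ : ∃ k, ¬ DD h (v (m + k)) ∧ (∀ k' < k, DD h (v (m + k'))) ∧
      k < R0 := by
    obtain ⟨k1, hk1, hk2⟩ := hR0 m
    refine ⟨Nat.find hexk, Nat.find_spec hexk, fun k' hk' => ?_, ?_⟩
    · exact not_not.1 (Nat.find_min hexk hk')
    · exact (Nat.find_min' hexk hk2).trans_lt hk1
  have hpk : ∀ k' ≤ k, pos (m + k') ≤ pos m + k' * m0 := by
    intro k'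
    induction k' with
    | zero => intro _; simp
    | succ k' ih =>
      intro hk'
      have e1 := ih (by omega)
      have e2 := hKD _ (hkmin k' (by omega))
      rw [← add_assoc, poss, Nat.succ_mul]
      omega
  have hpk' := hpk k le_rfl
  have hkm : k * m0 ≤ R0 * m0 := Nat.mul_le_mul_right _ hkR.le
  have hlen := hKN _ hk
  have hlM := hM (v (m + k))
  have hpkk : pos (m + k + 1) = pos (m + k) + (K (v (m + k))).length := poss _
  have hblk := f2_block hpos hG hY (m + k)
  change ∀ i, i < _ → Y (pos (m + k) + i) = Y (pos (m + k) + _) at hblk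
  set l := (K (v (m + k))).length with hl
  -- the palindrome in terms of `S`
  have hqk : q < pos (m + k + 1) := hm2.trans_le (posmono (by omega))
  have hcast : ((3 * 4 ^ K0 : ℕ) : ℤ) = 3 * 4 ^ K0 := by push_cast; ring
  have hiA : i0 ≤ pos (m + k) := by
    have : pos m ≤ pos (m + k) := posmono (by omega)
    have : pos (m + 1) = pos m + (K (v m)).length := poss m
    have := hM (v m)
    omega
  set a : ℤ := (pos (m + k) : ℤ) - q with ha
  set t : ℤ := max 0 a with ht
  have ht0 : 0 ≤ t := le_max_left _ _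
  have hta : a ≤ t := le_max_right _ _
  have htlt : t < 3 * 4 ^ K0 := by
    rw [← hcast]
    apply max_lt
    · have : 0 < 3 * 4 ^ K0 := by positivity
      exact_mod_cast this
    · rw [ha]
      have : pos (m + k) < q + 3 * 4 ^ K0 := by omega
      have h9 : (pos (m + k) : ℤ) < ((q + 3 * 4 ^ K0 : ℕ) : ℤ) := by exact_mod_cast this
      push_cast at h9 ⊢
      linarith
  have htb : t < a + (l + P.length : ℕ) := by
    apply max_lt
    · rw [ha]
      have : q < pos (m + k) + (l + P.length) := by omega
      have h9 : (q : ℤ) < ((pos (m + k) + (l + P.length) : ℕ) : ℤ) := by exact_mod_cast this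
      push_cast at h9 ⊢
      linarith
    · have : 0 < l + P.length := by omega
      have h9 : (0 : ℤ) < ((l + P.length : ℕ) : ℤ) := by exact_mod_cast this
      linarith
  have hgoal := hhole2 K0 a (a + (l + P.length : ℕ)) t ht0 htlt hta htb ?_
  · have h9 : ((l + P.length : ℕ) : ℤ) ≤ ((3 * 4 ^ K0 : ℕ) : ℤ) := by
      rw [hcast]; linarith
    have h10 : l + P.length ≤ 3 * 4 ^ K0 := by exact_mod_cast h9
    omega
  · intro i hi1 hi2
    have hb1 : pos (m + k) ≤ q + 3 * 4 ^ K0 := by omega
    have hb2 : q ≤ pos (m + k) + M := by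
      have : pos m ≤ pos (m + k) := posmono (by omega)
      have : pos (m + 1) = pos m + (K (v m)).length := poss m
      have := hM (v m)
      omega
    obtain ⟨r, hr⟩ : ∃ r : ℕ, i = a + r := ⟨(i - a).toNat, by omega⟩
    have hr2 : r < l + P.length := by
      have : (r : ℤ) < ((l + P.length : ℕ) : ℤ) := by linarith
      exact_mod_cast this
    have hYS : ∀ r : ℕ, r < l + P.length → Y (pos (m + k) + r) = S (a + r) := by
      intro r hr2
      have hbb : a + r < (W : ℤ) := by
        have : pos (m + k) + r < q + W := by omega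
        have h9 : ((pos (m + k) + r : ℕ) : ℤ) < ((q + W : ℕ) : ℤ) := by exact_mod_cast this
        push_cast at h9
        rw [ha]
        linarith
      have hba : -(W : ℤ) ≤ a + r := by
        have : q ≤ pos (m + k) + r + W := by omega
        have h9 : (q : ℤ) ≤ ((pos (m + k) + r + W : ℕ) : ℤ) := by exact_mod_cast this
        push_cast at h9
        rw [ha]
        linarith
      have e1 := hS (a + r) hba hbb
      rw [← e1]
      have e2 := hTE (pos (m + k) - i0 + r)
      rw [show i0 + (pos (m + k) - i0 + r) = pos (m + k) + r by omega] at e2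
      rw [e2]
      congr 1
      have e3 : ((j : ℤ) + (a + r)) = ((j0 + (pos (m + k) - i0 + r) : ℕ) : ℤ) := by
        rw [ha, hq]
        have : ((j - j0 : ℕ) : ℤ) = (j : ℤ) - j0 := by
          rw [Nat.cast_sub (by omega)]
        have h11 : ((pos (m + k) - i0 : ℕ) : ℤ) = (pos (m + k) : ℤ) - i0 := by
          rw [Nat.cast_sub hiA]
        push_cast
        rw [this, h11]
        ring
      rw [e3, Int.toNat_natCast]
    have hr3 : l + P.length - 1 - r < l + P.length := by omega
    have e4 := hYS r hr2
    have e5 := hYS _ hr3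
    have e6 := hblk r hr2
    rw [hr, ← e4, e6, e5]
    congr 1
    have : ((l + P.length - 1 - r : ℕ) : ℤ) = (l + P.length : ℕ) - 1 - r := by
      rw [Nat.cast_sub (by omega), Nat.cast_sub (by omega)]
      simp
    rw [this]
    ring

end Pool.Agent.H23.HKS
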