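import Pool.Agent.H23.HKS.Final2

/-!
# The sharp form: every solution with nonerasing morphisms is degenerate
-/

namespace Pool.Agent.H23.HKS

lemma f3_power (hcomp : CompSt) {B : Type} {g : B → List B} {v : ℕ → B} (hv : IsImage g v v)
    (P : ℕ) (hP : 1 ≤ P) : IsImage (fun c => (app g)^[P] [c]) v v := by
  induction P, hP using Nat.le_induction with
  | base =>
    have : (fun c => (app g)^[1] [c]) = g := by funext c; simp [c_app_sing]
    rw [this]
    exact hv
  | succ P _ ih =>
    have h1 := hcomp B B B g (fun c => (app g)^[P] [c]) v v v hv ih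
    have h2 : (fun c => (app g)^[P + 1] [c]) = fun a => app (fun c => (app g)^[P] [c]) (g a) := by
      funext c
      rw [Function.iterate_succ_apply, c_iter, c_app_sing]
      rfl
    rw [h2]
    exact h1

/-- A word with the language of `u` has no arbitrarily long windows with a fixed period. -/
lemma f3_aper (haper : AperSt) {y : ℕ → Fin 3} (hL : Lang y = Lang u) (p : ℕ) (hp : 1 ≤ p)
    (hper : ∀ R, ∃ i, ∀ k, k < R → y (i + k) = y (i + k + p)) : False := by
  obtain ⟨R, hR⟩ := haper p hp
  obtain ⟨i, hi⟩ := hper R
  have h1 : slice y i (R + p) ∈ Lang u := by rw [← hL]; exact ⟨i, R + p, rfl⟩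
  obtain ⟨j, n, hjn⟩ := h1
  have hn : n = R + p := by
    have := congrArg List.length hjn
    rw [c_len, c_len] at this
    exact this.symm
  subst hn
  have h2 : ∀ k, k < R + p → y (i + k) = u (j + k) := by
    intro k hk
    have e1 : (slice y i (R + p))[k]'(by rw [c_len]; exact hk) =
        (slice u j (R + p))[k]'(by rw [c_len]; exact hk) := by
      congr 1
    rwa [c_get, c_get] at e1
  obtain ⟨k, hk, hne⟩ := hR j
  apply hne
  rw [← h2 k (by omega), hi k hk]
  have e2 := h2 (k + p) (by omega)
  rw [← add_assoc, ← add_assoc] at e2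
  exact e2

theorem degenerate (hhole2 : HoleSt2) (haper : AperSt) (hidem : IdemSt) (hexp : ExpSt)
    (hgap : GapSt) (hper : PerSt) (hlate : LateSt) (hpos : PosSt) (hconj : TEConjSt)
    (hmap : TEMapSt) (hcomp : CompSt) (hdec : DecompSt) (B : Type) [Finite B]
    (v : ℕ → B) (g g' : B → List B) (f f' : B → List (Fin 3)) (y : ℕ → Fin 3)
    (hv : IsImage g v v) (h1 : Conjugate g g') (h2 : ClassP g') (h3 : Conjugate f f')
    (h4 : ClassP f') (hy : IsImage f v y) (hL : Lang y = Lang u) (hneg : NE g) (hnef : NE f)
    (i : ℕ) : ∃ C, ∀ n, ((app g)^[n] [v i]).length ≤ C := by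
  classical
  by_contra hcon
  push Not at hcon
  obtain ⟨P, hP, hId⟩ := hidem B g hneg
  set h : B → List B := fun c => (app g)^[P] [c] with hh
  have hvh : IsImage h v v := f3_power hcomp hv P hP
  have hneh : NE h := by
    intro c hc
    have h5 := f2_mono hneg [c] (Nat.zero_le P)
    have h6 : (h c).length = 0 := by rw [hc]; rfl
    simp only [hh] at h6
    rw [h6] at h5
    simp at h5
  have hnd : ¬ DD h (v i) := by
    intro hd
    obtain ⟨n, hn⟩ := hcon ((h (v i)).length + 1)
    have e1 : ∀ k, ((app h)^[k] [v i]).length ≤ (h (v i)).length + 1 := by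
      intro k
      cases k with
      | zero => simp
      | succ k =>
        have e2 : ∀ k, (app h)^[k + 1] [v i] = h (v i) := by
          intro k
          induction k with
          | zero => simp [c_app_sing]
          | succ k ih =>
            rw [Function.iterate_succ_apply', ih]
            exact hd
        rw [e2]
        omega
    have e3 := f2_mono hneg [v i] (Nat.le_mul_of_pos_left n hP)
    rw [← f2_iter_pow g P n] at e3
    change _ ≤ ((app h)^[n] [v i]).length at e3
    have e4 := e1 n
    omega
  by_cases hE : ∃ j, RExp h (v j) ∨ LExp h (v j)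
  · obtain ⟨j, hj⟩ := hE
    have hp := hexp B h v j hneh hvh hj
    obtain ⟨p, hp1, hp2⟩ := hper B (Fin 3) f v y hnef hy hp
    exact f3_aper haper hL p hp1 hp2
  · push Not at hE
    have hg := hgap B h v hneh hId hvh ⟨i, hnd⟩ hE
    exact finalGap hhole2 hlate hpos hconj hmap hcomp hdec B v g g' f f' y hv h1 h2 h3 h4 hy hL
      hneg hnef P hId hg

end Pool.Agent.H23.HKS
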