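import Pool.Agent.H23.HKS.Spec

/-!
# HKS-4, first part: images of infinite words
-/

set_option autoImplicit false

namespace Pool.Agent.H23.HKS

section Img1

variable {A B C : Type}

private lemma i1_slice_length (u : ℕ → A) (i n : ℕ) : (slice u i n).length = n := by
  simp [slice]

private lemma i1_slice_getElem (u : ℕ → A) (i n k : ℕ) (h : k < (slice u i n).length) :
    (slice u i n)[k] = u (i + k) := by
  simp [slice]

private lemma i1_slice_add (u : ℕ → A) (i n m : ℕ) :
    slice u i (n + m) = slice u i n ++ slice u (i + n) m := by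
  apply List.ext_getElem
  · simp [i1_slice_length]
  · intro k h1 h2
    rw [i1_slice_getElem]
    by_cases hk : k < n
    · rw [List.getElem_append_left (by simpa [i1_slice_length] using hk), i1_slice_getElem]
    · rw [List.getElem_append_right (by simpa [i1_slice_length] using hk), i1_slice_getElem]
      simp only [i1_slice_length]
      congr 1
      omega

private lemma i1_slice_one (u : ℕ → A) (i : ℕ) : slice u i 1 = [u i] := by simp [slice]

private lemma i1_slice_shift (u : ℕ → A) (i n : ℕ) :
    slice (fun j => u (i + j)) 0 n = slice u i n := by simp [slice]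

private lemma i1_app_append (f : A → List B) (v w : List A) :
    app f (v ++ w) = app f v ++ app f w := by
  simp [app]

private lemma i1_app_one (f : A → List B) (a : A) : app f [a] = f a := by simp [app]

private lemma i1_app_comp (h : A → List B) (k : B → List C) (w : List A) :
    app (fun a => app k (h a)) w = app k (app h w) := by
  simp only [app, List.flatMap_assoc]

private lemma i1_prefix_slice {z : ℕ → A} {w : List A} {M : ℕ} (h : w <+: slice z 0 M) :
    w = slice z 0 w.length := by
  obtain ⟨t, ht⟩ := h
  have hM : M = w.length + t.length := by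
    have := congrArg List.length ht
    simp [i1_slice_length] at this
    omega
  rw [hM, i1_slice_add] at ht
  exact List.append_inj_left ht (by simp [i1_slice_length])

private lemma i1_app_slice_add (f : A → List B) (x : ℕ → A) (n r : ℕ) :
    app f (slice x 0 (n + r)) = app f (slice x 0 n) ++ app f (slice x n r) := by
  rw [i1_slice_add, i1_app_append, Nat.zero_add]

private lemma i1_app_prefix (f : A → List B) (x : ℕ → A) {n n' : ℕ} (h : n ≤ n') :
    app f (slice x 0 n) <+: app f (slice x 0 n') := by
  obtain ⟨r, rfl⟩ := Nat.exists_eq_add_of_le h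
  exact ⟨app f (slice x n r), (i1_app_slice_add f x n r).symm⟩

private lemma i1_image_eq {h : A → List B} {x : ℕ → A} {y : ℕ → B} (H : IsImage h x y) (n : ℕ) :
    app h (slice x 0 n) = slice y 0 (app h (slice x 0 n)).length := by
  obtain ⟨m, hm⟩ := H.1 n
  exact i1_prefix_slice (M := m) (by rw [hm])

end Img1

theorem exImage : ExImageSt := by
  intro A B h x hx
  choose N hN using hx
  have hlt : ∀ k, k < (app h (slice x 0 (N (k + 1)))).length := fun k => hN (k + 1)
  refine ⟨fun k => (app h (slice x 0 (N (k + 1))))[k]'(hlt k), fun n => ?_, fun m => ⟨N m, hN m⟩⟩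
  refine ⟨(app h (slice x 0 n)).length, ?_⟩
  apply List.ext_getElem
  · rw [i1_slice_length]
  · intro k h1 h2
    rw [i1_slice_getElem]
    simp only [Nat.zero_add]
    rcases le_total n (N (k + 1)) with hle | hle
    · exact (i1_app_prefix h x hle).getElem h1
    · exact ((i1_app_prefix h x hle).getElem (hlt k)).symm

theorem pos : PosSt := by
  intro A B h x y H n
  have e1 := i1_image_eq H n
  have key : ∀ r, app h (slice x n r) =
      slice y (app h (slice x 0 n)).length (app h (slice x n r)).length := by
    intro r
    have e2 := i1_image_eq H (n + r)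
    rw [i1_app_slice_add, List.length_append, i1_slice_add, Nat.zero_add] at e2
    exact List.append_inj_right e2 (by simp [i1_slice_length])
  refine ⟨?_, ?_, ?_⟩
  · have := key 1
    rw [i1_slice_one, i1_app_one] at this
    exact this.symm
  · intro r
    refine ⟨(app h (slice x n r)).length, ?_⟩
    rw [i1_slice_shift, i1_slice_shift]
    exact key r
  · intro m
    obtain ⟨n', hn'⟩ := H.2 ((app h (slice x 0 n)).length + m)
    refine ⟨n', ?_⟩
    rw [i1_slice_shift]
    have h1 := (i1_app_prefix h x (Nat.le_add_left n' n)).length_le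
    rw [i1_app_slice_add, List.length_append] at h1
    omega

theorem comp : CompSt := by
  intro A B C h k x y z H1 H2
  refine ⟨fun n => ?_, fun m => ?_⟩
  · rw [i1_app_comp, i1_image_eq H1 n]
    exact H2.1 _
  · obtain ⟨m1, hm1⟩ := H2.2 m
    obtain ⟨n, hn⟩ := H1.2 m1
    refine ⟨n, ?_⟩
    rw [i1_app_comp, i1_image_eq H1 n]
    exact hm1.trans (i1_app_prefix k y hn).length_le

theorem decomp : DecompSt := by
  intro A B C hB h k x z H
  obtain ⟨c, hc⟩ : ∃ c : ℕ, ∀ b, (k b).length ≤ c := by
    obtain ⟨c, hc⟩ := (Set.finite_range fun b => (k b).length).bddAbove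
    exact ⟨c, fun b => hc ⟨b, rfl⟩⟩
  have hlen : ∀ w : List B, (app k w).length ≤ c * w.length := by
    intro w
    induction w with
    | nil => simp [app]
    | cons b w ih =>
      have e : app k (b :: w) = k b ++ app k w := by simp [app]
      rw [e, List.length_append, List.length_cons, Nat.mul_add, Nat.mul_one]
      have := hc b
      omega
  have hub : ∀ m, ∃ n, m ≤ (app h (slice x 0 n)).length := by
    intro m
    obtain ⟨n, hn⟩ := H.2 (c * m + 1)
    refine ⟨n, ?_⟩
    rw [i1_app_comp] at hn
    by_contra hcon
    have h1 := hlen (app h (slice x 0 n))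
    have h2 : c * (app h (slice x 0 n)).length ≤ c * m := Nat.mul_le_mul_left c (by omega)
    omega
  obtain ⟨y, hy⟩ := exImage A B h x hub
  refine ⟨y, hy, fun n => ?_, fun m => ?_⟩
  · obtain ⟨n', hn'⟩ := hy.2 n
    obtain ⟨M, hM⟩ := H.1 n'
    rw [i1_app_comp, i1_image_eq hy n'] at hM
    refine ⟨(app k (slice y 0 n)).length, i1_prefix_slice (M := M) ?_⟩
    rw [← hM]
    exact i1_app_prefix k y hn'
  · obtain ⟨n, hn⟩ := H.2 m
    rw [i1_app_comp, i1_image_eq hy n] at hn
    exact ⟨_, hn⟩

end Pool.Agent.H23.HKS
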