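import Pool.Agent.H23.HKS.Spec2
import Pool.Agent.H23.HKS.Img1
import Pool.Agent.H23.HKS.Cover

/-!
# HKS2-5: the letters on which `h` is not idempotent occur with bounded gaps
-/

set_option autoImplicit false

namespace Pool.Agent.H23.HKS

section Gap

variable {B : Type}

private lemma g_cons (h : B → List B) (c : B) (w : List B) : app h (c :: w) = h c ++ app h w := by
  simp [app]

private lemma g_len_ge {h : B → List B} (hNE : NE h) (w : List B) :
    w.length ≤ (app h w).length := by
  induction w with
  | nil => simp
  | cons c w ih =>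
    rw [g_cons, List.length_append, List.length_cons]
    have := List.length_pos_iff.2 (hNE c)
    omega

private lemma g_len_le {h : B → List B} {M : ℕ} (hM : ∀ c, (h c).length ≤ M) (w : List B) :
    (app h w).length ≤ M * w.length := by
  induction w with
  | nil => simp [app]
  | cons c w ih =>
    rw [g_cons, List.length_append, List.length_cons, Nat.mul_succ]
    have := hM c
    omega

private lemma g_fix {h : B → List B} (hNE : NE h) {w : List B} (hw : app h w = w) :
    ∀ e ∈ w, h e = [e] := by
  induction w with
  | nil => simp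
  | cons c w ih =>
    rw [g_cons] at hw
    have h1 := List.length_pos_iff.2 (hNE c)
    have h2 := g_len_ge hNE w
    have h3 := congrArg List.length hw
    rw [List.length_append, List.length_cons] at h3
    have h4 : (h c).length = 1 := by omega
    obtain ⟨c', hc'⟩ := List.length_eq_one_iff.1 h4
    rw [hc', List.singleton_append, List.cons.injEq] at hw
    intro e he
    rcases List.mem_cons.1 he with rfl | he
    · rw [hc', hw.1]
    · exact ih hw.2 e he

private lemma g_DD_sing {h : B → List B} {e : B} (he : h e = [e]) : DD h e := by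
  rw [DD, he, c_app_sing, he]

private lemma g_DD_mem {h : B → List B} (hNE : NE h) {c : B} (hc : DD h c) :
    ∀ e ∈ h c, DD h e :=
  fun e he => g_DD_sing (g_fix hNE hc e he)

private lemma g_idem {h : B → List B} {z : List B} (hz : ∀ e ∈ z, DD h e) :
    app h (app h z) = app h z := by
  induction z with
  | nil => simp [app]
  | cons c z ih =>
    rw [g_cons, c_app, ih (fun e he => hz e (List.mem_cons_of_mem _ he)),
      hz c List.mem_cons_self]

private lemma g_exists {h : B → List B}
    (hI : ∀ c, ¬ DD h c → ∀ L, ∃ n, L ≤ ((app h)^[n] [c]).length) {c : B} (hc : ¬ DD h c) :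
    ∃ d ∈ h c, ¬ DD h d := by
  by_contra hcon
  push Not at hcon
  have h1 := g_idem hcon
  obtain ⟨n, hn⟩ := hI c hc (2 + (h c).length + (app h (h c)).length)
  have h2 : ∀ n, (app h)^[n + 2] [c] = app h (h c) := by
    intro n
    induction n with
    | zero =>
      rw [Function.iterate_succ_apply', Function.iterate_succ_apply', Function.iterate_zero_apply,
        c_app_sing]
    | succ n ih =>
      rw [show n + 1 + 2 = (n + 2) + 1 by ring, Function.iterate_succ_apply', ih, h1]
  rcases n with _ | _ | n
  · rw [Function.iterate_zero_apply, List.length_singleton] at hn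
    omega
  · rw [Function.iterate_succ_apply', Function.iterate_zero_apply, c_app_sing] at hn
    omega
  · rw [h2 n] at hn
    omega

private lemma g_mem {A : Type} {v : ℕ → A} {a n : ℕ} {e : A} :
    e ∈ slice v a n ↔ ∃ k, k < n ∧ v (a + k) = e := by
  simp [slice]

private lemma g_one {A : Type} (v : ℕ → A) (a : ℕ) : slice v a 1 = [v a] := by simp [slice]

private lemma g_split {A : Type} (v : ℕ → A) (a k l : ℕ) :
    slice v a (k + 1 + l) = slice v a k ++ v (a + k) :: slice v (a + k + 1) l := by
  rw [c_add, c_add, g_one, List.append_assoc, List.singleton_append]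
  rfl

/-- The position of the block number `n`. -/
private def gp (h : B → List B) (v : ℕ → B) (n : ℕ) : ℕ := (app h (slice v 0 n)).length

private lemma gp_zero (h : B → List B) (v : ℕ → B) : gp h v 0 = 0 := by simp [gp, slice, app]

private lemma gp_succ (h : B → List B) (v : ℕ → B) (n : ℕ) :
    gp h v (n + 1) = gp h v n + (h (v n)).length := by
  rw [gp, c_add, c_app, List.length_append, Nat.zero_add, g_one, c_app_sing, gp]

private lemma gp_add (h : B → List B) (v : ℕ → B) (n r : ℕ) :
    gp h v (n + r) = gp h v n + (app h (slice v n r)).length := by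
  rw [gp, c_add, c_app, List.length_append, Nat.zero_add, gp]

private lemma gp_lt {h : B → List B} (hNE : NE h) (v : ℕ → B) {a b : ℕ} (hab : a < b) :
    gp h v a < gp h v b := by
  apply strictMono_nat_of_lt_succ _ hab
  intro n
  rw [gp_succ]
  have := List.length_pos_iff.2 (hNE (v n))
  omega

private lemma gp_le {h : B → List B} (hNE : NE h) (v : ℕ → B) {a b : ℕ} (hab : a ≤ b) :
    gp h v a ≤ gp h v b := by
  rcases hab.eq_or_lt with rfl | h1
  · exact le_rfl
  · exact (gp_lt hNE v h1).le

private lemma gp_ge {h : B → List B} (hNE : NE h) (v : ℕ → B) (n : ℕ) : n ≤ gp h v n := by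
  have := g_len_ge hNE (slice v 0 n)
  rwa [c_len] at this

private lemma gp_seg {h : B → List B} {v : ℕ → B} (hv : IsImage h v v) (n r : ℕ) :
    slice v (gp h v n) (app h (slice v n r)).length = app h (slice v n r) := by
  induction r with
  | zero => simp [slice, app]
  | succ r ih =>
    rw [c_add, c_app, List.length_append, c_add, ih, g_one, c_app_sing, ← gp_add]
    congr 1
    exact (pos B B h v v hv (n + r)).1

private lemma gp_block {h : B → List B} {v : ℕ → B} (hv : IsImage h v v) (n : ℕ) :
    slice v (gp h v n) (h (v n)).length = h (v n) := (pos B B h v v hv n).1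

private lemma gp_dec {h : B → List B} {v : ℕ → B} (hv : IsImage h v v) {n j : ℕ}
    (h1 : gp h v n ≤ j) (h2 : j < gp h v (n + 1)) :
    h (v n) = slice v (gp h v n) (j - gp h v n) ++ v j ::
      slice v (j + 1) (gp h v (n + 1) - (j + 1)) := by
  rw [← gp_block hv n]
  have h3 := gp_succ h v n
  have h4 : (h (v n)).length = (j - gp h v n) + 1 + (gp h v (n + 1) - (j + 1)) := by omega
  rw [h4, g_split, show gp h v n + (j - gp h v n) = j by omega]

private lemma gp_mem {h : B → List B} {v : ℕ → B} (hv : IsImage h v v) {n j : ℕ}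
    (h1 : gp h v n ≤ j) (h2 : j < gp h v (n + 1)) : v j ∈ h (v n) := by
  rw [gp_dec hv h1 h2]
  simp

private lemma gp_ex {h : B → List B} {v : ℕ → B} (hv : IsImage h v v) {n : ℕ} {d : B}
    (hd : d ∈ h (v n)) : ∃ j, gp h v n ≤ j ∧ j < gp h v (n + 1) ∧ v j = d := by
  rw [← gp_block hv n, g_mem] at hd
  obtain ⟨k, hk, rfl⟩ := hd
  refine ⟨gp h v n + k, by omega, ?_, rfl⟩
  rw [gp_succ]
  omega

private lemma gp_blk {h : B → List B} (hNE : NE h) (v : ℕ → B) (j : ℕ) :
    ∃ q, gp h v q ≤ j ∧ j < gp h v (q + 1) := by
  induction j with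
  | zero =>
    refine ⟨0, (gp_zero h v).le, ?_⟩
    have := gp_ge hNE v (0 + 1)
    omega
  | succ j ih =>
    obtain ⟨q, h1, h2⟩ := ih
    by_cases h3 : j + 1 < gp h v (q + 1)
    · exact ⟨q, by omega, h3⟩
    · have := gp_lt hNE v (show q + 1 < q + 1 + 1 by omega)
      exact ⟨q + 1, by omega, by omega⟩

private lemma g_nil_of_last {h : B → List B} {c d : B} {x y s : List B} (hc : ¬ DD h c)
    (h1 : h c = x ++ d :: s) (hs : ∀ e ∈ s, DD h e) (h2 : h c = y ++ [c]) : s = [] := by
  rcases List.eq_nil_or_concat s with h3 | ⟨s', e, h3⟩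
  · exact h3
  · exfalso
    rw [h1, h3] at h2
    have h4 : (x ++ d :: s') ++ [e] = y ++ [c] := by simpa using h2
    have h5 := (List.append_inj' h4 rfl).2
    rw [List.cons.injEq] at h5
    apply hc
    rw [← h5.1]
    apply hs
    rw [h3]
    simp

private lemma g_nil_of_head {h : B → List B} {c d : B} {x y s : List B} (hc : ¬ DD h c)
    (h1 : h c = s ++ d :: x) (hs : ∀ e ∈ s, DD h e) (h2 : h c = c :: y) : s = [] := by
  rcases s with _ | ⟨e, s⟩
  · rfl
  · exfalso
    rw [h1, List.cons_append, List.cons.injEq] at h2
    apply hc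
    rw [← h2.1]
    exact hs e List.mem_cons_self

end Gap

theorem gap : GapSt := by
  classical
  intro B _ h v hNE hI hv hex hexp
  obtain ⟨M, hM⟩ : ∃ M, ∀ b, (h b).length ≤ M := by
    have := Fintype.ofFinite B
    exact ⟨∑ b, (h b).length, fun b =>
      Finset.single_le_sum (f := fun b => (h b).length) (fun _ _ => Nat.zero_le _)
        (Finset.mem_univ b)⟩
  obtain ⟨hI1, hI2, hI3⟩ := hI
  obtain ⟨i0, hi0, hmin⟩ : ∃ i0, ¬ DD h (v i0) ∧ ∀ j, j < i0 → DD h (v j) :=
    ⟨Nat.find hex, Nat.find_spec hex, fun j hj => not_not.1 (Nat.find_min hex hj)⟩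
  have hge : ∀ p, ¬ DD h (v p) → i0 ≤ p := by
    intro p hp
    by_contra hcon
    exact hp (hmin p (by omega))
  -- (A)
  have hA0 : gp h v i0 = i0 := by
    apply le_antisymm _ (gp_ge hNE v i0)
    by_contra hcon
    obtain ⟨q, hq1, hq2⟩ := gp_blk hNE v i0
    have hq : q < i0 := by
      by_contra hq
      have := gp_le hNE v (show i0 ≤ q by omega)
      omega
    exact hi0 (g_DD_mem hNE (hmin q hq) _ (gp_mem hv hq1 hq2))
  have hA1 : i0 + 2 ≤ gp h v (i0 + 1) := by
    by_contra hcon
    have h1 := gp_succ h v i0
    have h2 := List.length_pos_iff.2 (hNE (v i0))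
    have h3 : (h (v i0)).length = 1 := by omega
    have h4 := gp_block hv i0
    rw [h3, hA0, g_one] at h4
    exact hi0 (g_DD_sing h4.symm)
  have hA2 : ∀ q, i0 < q → q + 1 ≤ gp h v q := by
    intro q hq
    obtain ⟨r, rfl⟩ := Nat.exists_eq_add_of_lt hq
    clear hq
    induction r with
    | zero => exact hA1
    | succ r ih =>
      have := gp_lt hNE v (show i0 + r + 1 < i0 + (r + 1) + 1 by omega)
      omega
  have hnext : ∀ p, ¬ DD h (v p) → ∃ p', p < p' ∧ ¬ DD h (v p') := by
    intro p hp
    rcases (hge p hp).eq_or_lt with rfl | hlt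
    · by_contra hcon
      push Not at hcon
      have h1 := gp_dec hv (n := i0) (j := i0) hA0.le (by omega)
      rw [hA0, Nat.sub_self] at h1
      refine (hexp i0).1 ⟨hi0, [], slice v (i0 + 1) (gp h v (i0 + 1) - (i0 + 1)), ?_, ?_, ?_⟩
      · simpa [slice] using h1
      · intro h2
        have h3 := congrArg List.length h2
        rw [c_len, List.length_nil] at h3
        omega
      · intro e he
        obtain ⟨k, _, rfl⟩ := g_mem.1 he
        exact hcon _ (by omega)
    · obtain ⟨d, hd, hnd⟩ := g_exists hI1 hp
      obtain ⟨j, hj1, hj2, rfl⟩ := gp_ex hv hd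
      have := hA2 p hlt
      exact ⟨j, by omega, hnd⟩
  -- (B)
  have key : ∀ p' p, p < p' → ¬ DD h (v p) → ¬ DD h (v p') →
      (∀ j, p < j → j < p' → DD h (v j)) →
      p' - p - 1 ≤ 3 * (M * M) + 2 * M ∧
      (app h (slice v (p + 1) (p' - p - 1))).length ≤ 3 * (M * M) + 2 * M ∧
      (((∃ x, h (v p) = x ++ [v p]) ∧ ∃ x, h (v p') = v p' :: x) ∨
        (app h (slice v (p + 1) (p' - p - 1))).length ≤ M * M) := by
    intro p'
    induction p' using Nat.strong_induction_on with
    | _ p' ih =>
      intro p hpp hp hp' hbet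
      obtain ⟨q, hq1, hq2⟩ := gp_blk hNE v p
      obtain ⟨q', hq1', hq2'⟩ := gp_blk hNE v p'
      have hqq : q ≤ q' := by
        by_contra hcon
        have := gp_le hNE v (show q' + 1 ≤ q by omega)
        omega
      rcases hqq.eq_or_lt with rfl | hlt
      · have h1 := gp_succ h v q
        have h2 := hM (v q)
        have h3 : p' - p - 1 ≤ M := by omega
        have h4 := g_len_le hM (slice v (p + 1) (p' - p - 1))
        rw [c_len] at h4
        have h5 : M * (p' - p - 1) ≤ M * M := Nat.mul_le_mul_left M h3
        exact ⟨by omega, by omega, Or.inr (by omega)⟩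
      · have hnq : ¬ DD h (v q) := fun hd => hp (g_DD_mem hNE hd _ (gp_mem hv hq1 hq2))
        have hnq' : ¬ DD h (v q') := fun hd => hp' (g_DD_mem hNE hd _ (gp_mem hv hq1' hq2'))
        have hle1 : gp h v (q + 1) ≤ gp h v q' := gp_le hNE v (by omega)
        have hbq : ∀ j, q < j → j < q' → DD h (v j) := by
          intro j hj1 hj2
          by_contra hcon
          obtain ⟨d, hd, hnd⟩ := g_exists hI1 hcon
          obtain ⟨k, hk1, hk2, rfl⟩ := gp_ex hv hd
          have h1 : gp h v (q + 1) ≤ gp h v j := gp_le hNE v (by omega)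
          have h2 : gp h v (j + 1) ≤ gp h v q' := gp_le hNE v (by omega)
          exact hnd (hbet k (by omega) (by omega))
        have hq'p' : q' < p' := by
          have h1 := hge q hnq
          have h2 := hA2 q' (by omega)
          omega
        obtain ⟨ih1, ih2, ih3⟩ := ih q' hq'p' q hlt hnq hnq' hbq
        -- the decomposition
        have hs : ∀ e ∈ slice v (p + 1) (gp h v (q + 1) - (p + 1)), DD h e := by
          intro e he
          obtain ⟨k, hk, rfl⟩ := g_mem.1 he
          exact hbet _ (by omega) (by omega)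
        have hs2 : ∀ e ∈ slice v (gp h v q') (p' - gp h v q'), DD h e := by
          intro e he
          obtain ⟨k, hk, rfl⟩ := g_mem.1 he
          exact hbet _ (by omega) (by omega)
        have hz1 : ∀ e ∈ slice v (q + 1) (q' - q - 1), DD h e := by
          intro e he
          obtain ⟨k, hk, rfl⟩ := g_mem.1 he
          exact hbq _ (by omega) (by omega)
        have hd1 := gp_dec hv hq1 hq2
        have hd2 := gp_dec hv hq1' hq2'
        have hlen1 : gp h v q' = gp h v (q + 1) +
            (app h (slice v (q + 1) (q' - q - 1))).length := by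
          rw [← gp_add]
          congr 1
          omega
        have hz : slice v (p + 1) (p' - p - 1) =
            slice v (p + 1) (gp h v (q + 1) - (p + 1)) ++
              (app h (slice v (q + 1) (q' - q - 1)) ++
                slice v (gp h v q') (p' - gp h v q')) := by
          have e1 : p' - p - 1 = (gp h v (q + 1) - (p + 1)) +
              ((app h (slice v (q + 1) (q' - q - 1))).length + (p' - gp h v q')) := by omega
          rw [e1, c_add, show p + 1 + (gp h v (q + 1) - (p + 1)) = gp h v (q + 1) by omega,
            c_add, gp_seg hv, ← hlen1]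
        -- the new pair is of the first kind
        have hfirst : (∃ x, h (v p) = x ++ [v p]) ∧ ∃ x, h (v p') = v p' :: x := by
          constructor
          · obtain ⟨x', s', h1, h2⟩ := hI2 _ _ _ _ hd1 hp hs
            by_cases h3 : s' = []
            · exact ⟨x', by rw [h1, h3]⟩
            · exact absurd ⟨hp, x', s', h1, h3, h2⟩ (hexp p).1
          · obtain ⟨x', s', h1, h2⟩ := hI3 _ _ _ _ hd2 hp' hs2
            by_cases h3 : s' = []
            · exact ⟨x', by rw [h1, h3]; rfl⟩
            · exact absurd ⟨hp', x', s', h1, h3, h2⟩ (hexp p').2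
        have hidem := g_idem hz1
        rcases ih3 with ⟨⟨y1, hy1⟩, ⟨y2, hy2⟩⟩ | hsmall
        · have hsn := g_nil_of_last hnq hd1 hs hy1
          have hsn2 := g_nil_of_head hnq' hd2 hs2 hy2
          rw [hsn, hsn2, List.nil_append, List.append_nil] at hz
          have hzl := congrArg List.length hz
          rw [c_len] at hzl
          refine ⟨by omega, ?_, Or.inl hfirst⟩
          rw [hz, hidem]
          exact ih2
        · have hl1 : gp h v (q + 1) - (p + 1) ≤ M := by
            have h1 := gp_succ h v q
            have h2 := hM (v q)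
            omega
          have hl2 : p' - gp h v q' ≤ M := by
            have h1 := gp_succ h v q'
            have h2 := hM (v q')
            omega
          have hzl := congrArg List.length hz
          rw [c_len, List.length_append, List.length_append, c_len, c_len] at hzl
          refine ⟨by omega, ?_, Or.inl hfirst⟩
          rw [hz, c_app, c_app, hidem, List.length_append, List.length_append]
          have h4 := g_len_le hM (slice v (p + 1) (gp h v (q + 1) - (p + 1)))
          have h5 := g_len_le hM (slice v (gp h v q') (p' - gp h v q'))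
          rw [c_len] at h4 h5
          have h6 := Nat.mul_le_mul_left M hl1
          have h7 := Nat.mul_le_mul_left M hl2
          omega
  -- conclusion
  refine ⟨i0 + (3 * (M * M) + 2 * M) + 2, fun i => ?_⟩
  by_cases hi : i ≤ i0
  · exact ⟨i0 - i, by omega, by rw [show i + (i0 - i) = i0 by omega]; exact hi0⟩
  · -- the last exceptional position before `i`
    obtain ⟨p, hpi, hp, hpmax⟩ : ∃ p, p < i ∧ ¬ DD h (v p) ∧ ∀ j, p < j → j < i → DD h (v j) := by
      have h1 : ∃ k, k < i ∧ ¬ DD h (v (i - 1 - k)) :=
        ⟨i - 1 - i0, by omega, by rw [show i - 1 - (i - 1 - i0) = i0 by omega]; exact hi0⟩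
      obtain ⟨h2, h3⟩ := Nat.find_spec h1
      refine ⟨i - 1 - Nat.find h1, by omega, h3, fun j hj1 hj2 => ?_⟩
      by_contra hcon
      have h4 := Nat.find_min h1 (show i - 1 - j < Nat.find h1 by omega)
      exact h4 ⟨by omega, by rw [show i - 1 - (i - 1 - j) = j by omega]; exact hcon⟩
    have hex2 := hnext p hp
    obtain ⟨h2, h3⟩ := Nat.find_spec hex2
    have h4 : ∀ j, p < j → j < Nat.find hex2 → DD h (v j) := by
      intro j hj1 hj2
      by_contra hcon
      exact Nat.find_min hex2 hj2 ⟨hj1, hcon⟩
    have h5 : i ≤ Nat.find hex2 := by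
      by_contra hcon
      exact h3 (hpmax _ h2 (by omega))
    obtain ⟨h6, -, -⟩ := key _ _ h2 hp h3 h4
    exact ⟨Nat.find hex2 - i, by omega, by
      rw [show i + (Nat.find hex2 - i) = Nat.find hex2 by omega]; exact h3⟩

end Pool.Agent.H23.HKS
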