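import Pool.Agent.H23.HKS.Spec

/-!
# HKS-2: no palindrome of length at least 2 covers the letter 0 of `S`
-/

namespace Pool.Agent.H23.HKS

section Hole

private lemma hole_s0 : s 0 = true := by
  rw [s]; simp

private lemma hole_sm1 : s (-1) = true := by
  rw [s]; simp

variable (hs : sSt)
include hs

private lemma hole_r0 (i : ℤ) (n : ℤ) (h : n = 4 * i) : s n = s i := by
  rw [hs n, if_neg (by omega), if_neg (by omega)]
  congr 1
  omega

private lemma hole_r3 (i : ℤ) (n : ℤ) (h : n = 4 * i + 3) : s n = s i := by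
  rw [hs n, if_neg (by omega), if_neg (by omega)]
  congr 1
  omega

private lemma hole_r1 (n : ℤ) (h : n % 4 = 1) : s n = true := by
  rw [hs n, if_pos h]

private lemma hole_r2 (n : ℤ) (h : n % 4 = 2) : s n = false := by
  rw [hs n, if_neg (by omega), if_pos h]

private lemma hole_step1 : ∀ n : ℕ, ∀ c : ℤ, c.natAbs ≤ n → ∀ k : ℕ,
    (∀ j : ℕ, j < k → s (c - 1 - j) ≠ s (c + j)) →
    (1 ≤ c → (k : ℤ) ≤ c - 1) ∧ (c ≤ 0 → (k : ℤ) ≤ -c) := by
  intro n
  induction n with
  | zero =>
    intro c hc k hk
    have h0 : c = 0 := by omega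
    subst h0
    rcases Nat.eq_zero_or_pos k with hk0 | hk0
    · subst hk0; simp
    · exfalso
      have h := hk 0 hk0
      apply h
      have e1 : (0 : ℤ) - 1 - ((0 : ℕ) : ℤ) = -1 := by norm_num
      have e2 : (0 : ℤ) + ((0 : ℕ) : ℤ) = 0 := by norm_num
      rw [e1, e2, hole_s0, hole_sm1]
  | succ n ih =>
    intro c hc k hk
    have hcase : c % 4 = 0 ∨ c % 4 = 1 ∨ c % 4 = 2 ∨ c % 4 = 3 := by omega
    rcases hcase with h4 | h4 | h4 | h4
    · -- c = 4 i
      by_cases hc0 : c = 0
      · exact ih c (by omega) k hk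
      · obtain ⟨i, hi⟩ : ∃ i, c = 4 * i := ⟨c / 4, by omega⟩
        have key := ih i (by omega) ((k + 3) / 4) (by
          intro j hj
          have h := hk (4 * j) (by omega)
          have e1 : s (c - 1 - ((4 * j : ℕ) : ℤ)) = s (i - 1 - j) :=
            hole_r3 hs _ _ (by push_cast; omega)
          have e2 : s (c + ((4 * j : ℕ) : ℤ)) = s (i + j) :=
            hole_r0 hs _ _ (by push_cast; omega)
          rw [e1, e2] at h
          exact h)
        constructor
        · intro h1
          have := key.1 (by omega)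
          omega
        · intro h1
          have := key.2 (by omega)
          omega
    · -- c = 4 i + 1
      obtain ⟨i, hi⟩ : ∃ i, c = 4 * i + 1 := ⟨c / 4, by omega⟩
      have hk2 : k ≤ 2 := by
        by_contra hcon
        have h0 := hk 0 (by omega)
        have h2 := hk 2 (by omega)
        have e1 : s (c - 1 - ((0 : ℕ) : ℤ)) = s i := hole_r0 hs _ _ (by push_cast; omega)
        have e2 : s (c + ((0 : ℕ) : ℤ)) = true := hole_r1 hs _ (by push_cast; omega)
        have e3 : s (c - 1 - ((2 : ℕ) : ℤ)) = false := hole_r2 hs _ (by push_cast; omega)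
        have e4 : s (c + ((2 : ℕ) : ℤ)) = s i := hole_r3 hs _ _ (by push_cast; omega)
        rw [e1, e2] at h0
        rw [e3, e4] at h2
        cases hsi : s i
        · exact h2 hsi.symm
        · exact h0 hsi
      have hk1 : c = 1 → k = 0 := by
        intro h1
        by_contra hcon
        have h0 := hk 0 (by omega)
        apply h0
        have e1 : s (c - 1 - ((0 : ℕ) : ℤ)) = s 0 := by congr 1; push_cast; omega
        have e2 : s (c + ((0 : ℕ) : ℤ)) = true := hole_r1 hs _ (by push_cast; omega)
        rw [e1, e2, hole_s0]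
      constructor
      · intro h1
        by_cases h : c = 1
        · have := hk1 h
          omega
        · omega
      · intro h1
        omega
    · -- c = 4 i + 2
      obtain ⟨i, hi⟩ : ∃ i, c = 4 * i + 2 := ⟨c / 4, by omega⟩
      have hk1 : k ≤ 1 := by
        by_contra hcon
        have h1 := hk 1 (by omega)
        apply h1
        have e1 : s (c - 1 - ((1 : ℕ) : ℤ)) = s i := hole_r0 hs _ _ (by push_cast; omega)
        have e2 : s (c + ((1 : ℕ) : ℤ)) = s i := hole_r3 hs _ _ (by push_cast; omega)
        rw [e1, e2]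
      constructor
      · intro h1
        omega
      · intro h1
        omega
    · -- c = 4 i + 3
      obtain ⟨i, hi⟩ : ∃ i, c = 4 * i + 3 := ⟨c / 4, by omega⟩
      have hk2 : k ≤ 2 := by
        by_contra hcon
        have h0 := hk 0 (by omega)
        have h2 := hk 2 (by omega)
        have e1 : s (c - 1 - ((0 : ℕ) : ℤ)) = false := hole_r2 hs _ (by push_cast; omega)
        have e2 : s (c + ((0 : ℕ) : ℤ)) = s i := hole_r3 hs _ _ (by push_cast; omega)
        have e3 : s (c - 1 - ((2 : ℕ) : ℤ)) = s i := hole_r0 hs _ _ (by push_cast; omega)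
        have e4 : s (c + ((2 : ℕ) : ℤ)) = true := hole_r1 hs _ (by push_cast; omega)
        rw [e1, e2] at h0
        rw [e3, e4] at h2
        cases hsi : s i
        · exact h0 hsi.symm
        · exact h2 hsi
      have hk1 : c = -1 → k ≤ 1 := by
        intro h1
        by_contra hcon
        have h := hk 1 (by omega)
        apply h
        have e1 : s (c - 1 - ((1 : ℕ) : ℤ)) = true := hole_r1 hs _ (by push_cast; omega)
        have e2 : s (c + ((1 : ℕ) : ℤ)) = s 0 := by congr 1; push_cast; omega
        rw [e1, e2, hole_s0]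
      constructor
      · intro h1
        omega
      · intro h1
        by_cases h : c = -1
        · have := hk1 h
          omega
        · omega

omit hs in
private lemma hole_S0 (i n : ℤ) (h : n = 3 * i) : S n = if s i then 0 else 2 := by
  have e1 : n / 3 = i := by omega
  have e2 : (n % 3).toNat = 0 := by omega
  rw [S, e1, e2]
  cases s i <;> simp [cod]

omit hs in
private lemma hole_S1 (i n : ℤ) (h : n = 3 * i + 1) : S n = 1 := by
  have e1 : n / 3 = i := by omega
  have e2 : (n % 3).toNat = 1 := by omega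
  rw [S, e1, e2]
  simp [cod]

omit hs in
private lemma hole_S2 (i n : ℤ) (h : n = 3 * i + 2) : S n = if s i then 2 else 0 := by
  have e1 : n / 3 = i := by omega
  have e2 : (n % 3).toNat = 2 := by omega
  rw [S, e1, e2]
  cases s i <;> simp [cod]

/-- HKS-2 -/
theorem hole : HoleSt := by
  intro a b ha hb hab hpal
  rcases Int.even_or_odd (a + b - 1) with ⟨m, hm⟩ | ⟨m, hm⟩
  · -- the centre is `m`
    have h := hpal (m - 1) (by omega) (by omega)
    have e : a + b - 1 - (m - 1) = m + 1 := by omega
    rw [e] at h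
    have h3 : m % 3 = 0 ∨ m % 3 = 1 ∨ m % 3 = 2 := by omega
    rcases h3 with h3 | h3 | h3
    · rw [hole_S2 (m / 3 - 1) (m - 1) (by omega), hole_S1 (m / 3) (m + 1) (by omega)] at h
      cases hsi : s (m / 3 - 1) <;> simp [hsi] at h
    · rw [hole_S0 (m / 3) (m - 1) (by omega), hole_S2 (m / 3) (m + 1) (by omega)] at h
      cases hsi : s (m / 3) <;> simp [hsi] at h
    · rw [hole_S1 (m / 3) (m - 1) (by omega), hole_S0 (m / 3 + 1) (m + 1) (by omega)] at h
      cases hsi : s (m / 3 + 1) <;> simp [hsi] at h
  · -- the centre is between `m` and `m + 1`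
    have h := hpal m (by omega) (by omega)
    have e : a + b - 1 - m = m + 1 := by omega
    rw [e] at h
    have h3 : m % 3 = 2 := by
      have h3 : m % 3 = 0 ∨ m % 3 = 1 ∨ m % 3 = 2 := by omega
      rcases h3 with h3 | h3 | h3
      · exfalso
        rw [hole_S0 (m / 3) m (by omega), hole_S1 (m / 3) (m + 1) (by omega)] at h
        cases hsi : s (m / 3) <;> simp [hsi] at h
      · exfalso
        rw [hole_S1 (m / 3) m (by omega), hole_S2 (m / 3) (m + 1) (by omega)] at h
        cases hsi : s (m / 3) <;> simp [hsi] at h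
      · exact h3
    obtain ⟨c, hc⟩ : ∃ c, m = 3 * c - 1 := ⟨m / 3 + 1, by omega⟩
    obtain ⟨κ, hκ⟩ : ∃ κ : ℕ, (κ : ℤ) = b - 3 * c := ⟨(b - 3 * c).toNat, by omega⟩
    have key := hole_step1 hs c.natAbs c le_rfl ((κ + 2) / 3) (by
      intro j hj heq
      have h := hpal (3 * (c + j)) (by omega) (by omega)
      have e : a + b - 1 - 3 * (c + j) = 3 * (c - 1 - j) + 2 := by omega
      rw [e, hole_S0 (c + j) _ rfl, hole_S2 (c - 1 - j) _ rfl, heq] at h
      cases hsi : s (c + j) <;> simp [hsi] at h)
    rcases le_or_gt 1 c with h1 | h1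
    · have := key.1 h1
      omega
    · have := key.2 (by omega)
      omega

end Hole

end Pool.Agent.H23.HKS
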