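import Pool.Agent.H23.HKS.Spec

/-!
# HKS-1: the word `u` is primitive morphic and palindromic
-/

namespace Pool.Agent.H23.HKS

theorem v_eq : VSt := by
  intro n
  by_cases h0 : n = 0
  · subst h0
    simp
  · conv_lhs => rw [V]
    rw [if_neg h0]

theorem s_eq : sSt := by
  intro n
  by_cases h0 : n = 0 ∨ n = -1
  · have h1 : s 0 = true := by rw [s]; simp
    have h2 : s (-1) = true := by rw [s]; simp
    rcases h0 with rfl | rfl
    · simp [h1]
    · rw [h2]
      norm_num
      exact h2
  · conv_lhs => rw [s]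
    rw [if_neg h0]

private theorem slice_succ {A : Type} (w : ℕ → A) (i n : ℕ) :
    slice w i (n + 1) = slice w i n ++ [w (i + n)] := by
  unfold slice
  rw [List.range_succ, List.map_append]
  rfl

private theorem slice_length {A : Type} (w : ℕ → A) (i n : ℕ) : (slice w i n).length = n := by
  simp [slice]

private theorem slice_getElem {A : Type} (w : ℕ → A) (i n k : ℕ) (hk : k < (slice w i n).length) :
    (slice w i n)[k] = w (i + k) := by
  simp [slice]

private theorem app_append {A B : Type} (f : A → List B) (x y : List A) :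
    app f (x ++ y) = app f x ++ app f y := by
  simp [app]

private theorem app_single {A B : Type} (f : A → List B) (a : A) : app f [a] = f a := by
  simp [app]

private theorem V0 (m : ℕ) : V (4 * m) = V m := by
  rw [v_eq (4 * m), if_neg (by omega), if_neg (by omega)]
  congr 1
  omega

private theorem V1 (m : ℕ) : V (4 * m + 1) = true := by
  rw [v_eq (4 * m + 1), if_pos (by omega)]

private theorem V2 (m : ℕ) : V (4 * m + 2) = false := by
  rw [v_eq (4 * m + 2), if_neg (by omega), if_pos (by omega)]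

private theorem V3 (m : ℕ) : V (4 * m + 3) = V m := by
  rw [v_eq (4 * m + 3), if_neg (by omega), if_neg (by omega)]
  congr 1
  omega

private theorem app_phi (n : ℕ) : app phi0 (slice V 0 n) = slice V 0 (4 * n) := by
  induction n with
  | zero => simp [slice, app]
  | succ n ih =>
    rw [slice_succ, app_append, app_single, ih]
    rw [show 4 * (n + 1) = 4 * n + 1 + 1 + 1 + 1 by ring]
    rw [slice_succ, slice_succ, slice_succ, slice_succ]
    simp only [Nat.zero_add]
    rw [V0, V1, show 4 * n + 1 + 1 = 4 * n + 2 by ring, V2,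
      show 4 * n + 2 + 1 = 4 * n + 3 by ring, V3]
    simp [phi0]

private theorem u_at (m r : ℕ) (hr : r < 3) : u (3 * m + r) = cod (V m) r := by
  unfold u
  rw [show (3 * m + r) / 3 = m by omega, show (3 * m + r) % 3 = r by omega]

private theorem mu_cod (c : Bool) : mu c = [cod c 0, cod c 1, cod c 2] := by
  cases c <;> simp [mu, cod]

private theorem app_mu (n : ℕ) : app mu (slice V 0 n) = slice u 0 (3 * n) := by
  induction n with
  | zero => simp [slice, app]
  | succ n ih =>
    rw [slice_succ, app_append, app_single, ih]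
    rw [show 3 * (n + 1) = 3 * n + 1 + 1 + 1 by ring]
    rw [slice_succ, slice_succ, slice_succ]
    simp only [Nat.zero_add]
    have h0 : u (3 * n) = cod (V n) 0 := u_at n 0 (by omega)
    have h1 : u (3 * n + 1) = cod (V n) 1 := u_at n 1 (by omega)
    have h2 : u (3 * n + 1 + 1) = cod (V n) 2 := u_at n 2 (by omega)
    rw [h0, h1, h2, mu_cod]
    simp

theorem morph : MorphSt := by
  refine ⟨Bool, inferInstance, phi0, V, mu, ⟨1, le_rfl, ?_⟩, ⟨fun n => ⟨4 * n, app_phi n⟩, ?_⟩,
    ⟨fun n => ⟨3 * n, app_mu n⟩, ?_⟩⟩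
  · intro a b
    rw [Function.iterate_one, app_single]
    cases b <;> simp [phi0]
  · intro m
    refine ⟨m, ?_⟩
    rw [app_phi, slice_length]
    omega
  · intro m
    refine ⟨m, ?_⟩
    rw [app_mu, slice_length]
    omega

theorem expl : IsPrimitive phi0 ∧ IsImage phi0 V V ∧ IsImage mu V u := by
  refine ⟨⟨1, le_rfl, ?_⟩, ⟨fun n => ⟨4 * n, app_phi n⟩, ?_⟩, ⟨fun n => ⟨3 * n, app_mu n⟩, ?_⟩⟩
  · intro a b
    rw [Function.iterate_one, app_single]
    cases b <;> simp [phi0]
  · intro m
    refine ⟨m, ?_⟩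
    rw [app_phi, slice_length]
    omega
  · intro m
    refine ⟨m, ?_⟩
    rw [app_mu, slice_length]
    omega

private theorem V_anti (n : ℕ) : ∀ j < 4 ^ n, V (2 * 4 ^ n - 1 - j) = !V (2 * 4 ^ n + j) := by
  induction n with
  | zero =>
    intro j hj
    have hj0 : j = 0 := by simpa using hj
    subst hj0
    have h1 : V 1 = true := V1 0
    have h2 : V 2 = false := V2 0
    simp [h1, h2]
  | succ n ih =>
    intro j hj
    obtain ⟨q, r, hr, rfl⟩ : ∃ q r, r < 4 ∧ j = 4 * q + r :=
      ⟨j / 4, j % 4, Nat.mod_lt _ (by norm_num), by omega⟩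
    have hp : 4 ^ (n + 1) = 4 * 4 ^ n := by rw [pow_succ]; ring
    rw [hp] at hj ⊢
    have hq : q < 4 ^ n := by omega
    have hq2 := ih q hq
    set c := 4 ^ n with hc
    have e1 : 2 * (4 * c) - 1 - (4 * q + r) = 4 * (2 * c - 1 - q) + (3 - r) := by omega
    have e2 : 2 * (4 * c) + (4 * q + r) = 4 * (2 * c + q) + r := by omega
    rw [e1, e2]
    interval_cases r
    · rw [show 3 - 0 = 3 by norm_num, V3, Nat.add_zero, V0, hq2]
    · rw [show 3 - 1 = 2 by norm_num, V2, V1]; rfl
    · rw [show 3 - 2 = 1 by norm_num, V1, V2]; rfl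
    · rw [show 3 - 3 = 0 by norm_num, Nat.add_zero, V0, V3, hq2]

private theorem cod_anti (b : Bool) (r : ℕ) (hr : r < 3) : cod (!b) (2 - r) = cod b r := by
  interval_cases r <;> cases b <;> simp [cod]

private theorem u_pal (n : ℕ) : ∀ i < 3 * 4 ^ n, u (6 * 4 ^ n - 1 - i) = u (6 * 4 ^ n + i) := by
  intro i hi
  obtain ⟨q, r, hr, rfl⟩ : ∃ q r, r < 3 ∧ i = 3 * q + r :=
    ⟨i / 3, i % 3, Nat.mod_lt _ (by norm_num), by omega⟩
  have hq : q < 4 ^ n := by omega
  have h := V_anti n q hq
  set c := 4 ^ n with hc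
  have e1 : 6 * c - 1 - (3 * q + r) = 3 * (2 * c - 1 - q) + (2 - r) := by omega
  have e2 : 6 * c + (3 * q + r) = 3 * (2 * c + q) + r := by omega
  rw [e1, e2, u_at _ _ (by omega), u_at _ _ hr, h, cod_anti _ _ hr]

theorem pal : PalSt := by
  unfold PalSt IsPalindromic
  refine Set.infinite_of_injective_forall_mem (f := fun n => slice u (3 * 4 ^ n) (6 * 4 ^ n))
    ?_ ?_
  · intro a b hab
    have h := congrArg List.length hab
    simp only [slice_length] at h
    have h2 : 4 ^ a = 4 ^ b := by omega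
    exact Nat.pow_right_injective (by norm_num : 2 ≤ 4) h2
  · intro n
    refine ⟨⟨_, _, rfl⟩, ?_⟩
    apply List.ext_getElem
    · simp
    · intro k h1 h2
      rw [List.getElem_reverse, slice_getElem, slice_getElem]
      rw [slice_length] at h2 ⊢
      by_cases hk : k < 3 * 4 ^ n
      · have h := u_pal n (3 * 4 ^ n - 1 - k) (by omega)
        rw [show 6 * 4 ^ n - 1 - (3 * 4 ^ n - 1 - k) = 3 * 4 ^ n + k by omega] at h
        rw [show 3 * 4 ^ n + (6 * 4 ^ n - 1 - k) = 6 * 4 ^ n + (3 * 4 ^ n - 1 - k) by omega]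
        exact h.symm
      · have h := u_pal n (k - 3 * 4 ^ n) (by omega)
        rw [show 6 * 4 ^ n - 1 - (k - 3 * 4 ^ n) = 3 * 4 ^ n + (6 * 4 ^ n - 1 - k) by omega] at h
        rw [show 3 * 4 ^ n + k = 6 * 4 ^ n + (k - 3 * 4 ^ n) by omega]
        exact h

end Pool.Agent.H23.HKS
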