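import Pool.Agent.H23.HKS.Spec2
import Pool.Agent.H23.HKS.Cover

/-!
# HKS2-3: an idempotent power of a nonerasing morphism
-/

set_option autoImplicit false

namespace Pool.Agent.H23.HKS

/-! ### eventually periodic orbits -/

private def EP {α : Type} (F : α → α) (x : α) (P : ℕ) : Prop := F^[2 * P] x = F^[P] x

private lemma ep_pow {α : Type} {F : α → α} {x : α} {P : ℕ} (h : EP F x P) :
    ∀ k, 1 ≤ k → F^[k * P] x = F^[P] x := by
  intro k hk
  induction k with
  | zero => omega
  | succ k ih =>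
    rcases Nat.eq_zero_or_pos k with rfl | hk'
    · simp
    · have e : (k + 1) * P = P + k * P := by ring
      rw [e, Function.iterate_add_apply, ih hk', ← Function.iterate_add_apply, ← two_mul]
      exact h

private lemma ep_mul {α : Type} {F : α → α} {x : α} {P : ℕ} (h : EP F x P) {k : ℕ}
    (hk : 1 ≤ k) : EP F x (k * P) := by
  unfold EP
  rw [ep_pow h k hk, ← mul_assoc, ep_pow h (2 * k) (by omega)]

private lemma ep_dvd {α : Type} {F : α → α} {x : α} {P Q : ℕ} (h : EP F x P) (hQ : 1 ≤ Q)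
    (hd : P ∣ Q) : EP F x Q := by
  obtain ⟨k, rfl⟩ := hd
  have hk : 1 ≤ k := by
    rcases Nat.eq_zero_or_pos k with rfl | hk
    · simp at hQ
    · exact hk
  rw [mul_comm]
  exact ep_mul h hk

private lemma ep_key {α : Type} {F : α → α} {x : α} {a b : ℕ} (hab : a < b)
    (he : F^[a] x = F^[b] x) : ∃ P, 1 ≤ P ∧ EP F x P := by
  obtain ⟨p, rfl⟩ : ∃ p, b = a + p := ⟨b - a, by omega⟩
  have hp : 1 ≤ p := by omega
  have h1 : ∀ j, F^[a + j + p] x = F^[a + j] x := by
    intro j
    have e1 : a + j + p = j + (a + p) := by ring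
    have e2 : a + j = j + a := by ring
    rw [e1, e2, Function.iterate_add_apply F j (a + p), Function.iterate_add_apply F j a, ← he]
  have h2 : ∀ k j, F^[a + j + k * p] x = F^[a + j] x := by
    intro k
    induction k with
    | zero => intro j; simp
    | succ k ih =>
      intro j
      have e : a + j + (k + 1) * p = a + (j + k * p) + p := by ring
      rw [e, h1, ← add_assoc]
      exact ih j
  have hle : a + 1 ≤ (a + 1) * p := Nat.le_mul_of_pos_right _ hp
  refine ⟨(a + 1) * p, by omega, ?_⟩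
  unfold EP
  obtain ⟨j, hj⟩ : ∃ j, (a + 1) * p = a + j := ⟨(a + 1) * p - a, by omega⟩
  have h3 := h2 (a + 1) j
  rw [← hj] at h3
  rw [two_mul]
  exact h3

private lemma ep_finite {α : Type} {F : α → α} {x : α} {S : Set α} (hS : S.Finite)
    (h : ∀ n, F^[n] x ∈ S) : ∃ P, 1 ≤ P ∧ EP F x P := by
  have : Finite S := hS
  obtain ⟨a, b, hab, he⟩ :=
    Finite.exists_ne_map_eq_of_infinite (fun n : ℕ => (⟨F^[n] x, h n⟩ : S))
  have he' : F^[a] x = F^[b] x := congrArg Subtype.val he
  rcases Nat.lt_or_gt_of_ne hab with h1 | h1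
  · exact ep_key h1 he'
  · exact ep_key h1 he'.symm

/-- a common period -/
private lemma ep_common {ι α : Type} [Finite ι] (F : α → α) (x : ι → α) (D : ι → Prop)
    (h : ∀ i, D i → ∃ P, 1 ≤ P ∧ EP F (x i) P) : ∃ P, 1 ≤ P ∧ ∀ i, D i → EP F (x i) P := by
  classical
  cases nonempty_fintype ι
  have h' : ∀ i, ∃ P, 1 ≤ P ∧ (D i → EP F (x i) P) := by
    intro i
    by_cases hD : D i
    · obtain ⟨P, h1, h2⟩ := h i hD
      exact ⟨P, h1, fun _ => h2⟩
    · exact ⟨1, le_rfl, fun h => absurd h hD⟩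
  choose P hP1 hP2 using h'
  have hpos : 1 ≤ ∏ i, P i := Nat.succ_le_of_lt (Finset.prod_pos fun i _ => hP1 i)
  exact ⟨∏ i, P i, hpos, fun i hi =>
    ep_dvd (hP2 i hi) hpos (Finset.dvd_prod_of_mem P (Finset.mem_univ i))⟩

/-! ### bounded letters -/

private def Bd {B : Type} (g : B → List B) (c : B) : Prop :=
  ∃ C, ∀ n, ((app g)^[n] [c]).length ≤ C

private lemma it_app {B : Type} (g : B → List B) (n : ℕ) (v w : List B) :
    (app g)^[n] (v ++ w) = (app g)^[n] v ++ (app g)^[n] w := by
  rw [c_iter, c_iter g n v, c_iter g n w, List.flatMap_append]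

private lemma it_succ {B : Type} (g : B → List B) (n : ℕ) (c : B) :
    (app g)^[n + 1] [c] = (app g)^[n] (g c) := by
  rw [Function.iterate_succ_apply, c_app_sing]

private lemma it_nil {B : Type} (g : B → List B) (n : ℕ) : (app g)^[n] [] = [] := by
  rw [c_iter]; rfl

private lemma bd_word {B : Type} (g : B → List B) (w : List B) (h : ∀ e ∈ w, Bd g e) :
    ∃ C, ∀ n, ((app g)^[n] w).length ≤ C := by
  induction w with
  | nil => exact ⟨0, fun n => by rw [it_nil]; simp⟩
  | cons a w ih =>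
    obtain ⟨C1, h1⟩ := ih fun e he => h e (List.mem_cons_of_mem _ he)
    obtain ⟨C2, h2⟩ := h a List.mem_cons_self
    refine ⟨C2 + C1, fun n => ?_⟩
    have e : a :: w = [a] ++ w := rfl
    rw [e, it_app, List.length_append]
    exact Nat.add_le_add (h2 n) (h1 n)

private lemma bd_of_all {B : Type} (g : B → List B) (c : B) (h : ∀ e ∈ g c, Bd g e) : Bd g c := by
  obtain ⟨C, hC⟩ := bd_word g (g c) h
  refine ⟨C + 1, fun n => ?_⟩
  cases n with
  | zero => simp
  | succ n =>
    rw [it_succ]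
    exact (hC n).trans (Nat.le_succ _)

private lemma bd_letter {B : Type} (g : B → List B) (c e : B) (hc : Bd g c) (he : e ∈ g c) :
    Bd g e := by
  obtain ⟨C, hC⟩ := hc
  refine ⟨C, fun n => ?_⟩
  obtain ⟨s, t, hst⟩ := List.append_of_mem he
  have h1 := hC (n + 1)
  rw [it_succ, hst, it_app] at h1
  have e2 : e :: t = [e] ++ t := rfl
  rw [e2, it_app, List.length_append, List.length_append] at h1
  omega

private lemma bd_app {B : Type} (g : B → List B) (w : List B) (h : ∀ e ∈ w, Bd g e) :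
    ∀ e ∈ app g w, Bd g e := by
  intro e he
  obtain ⟨a, ha, hea⟩ := List.mem_flatMap.1 he
  exact bd_letter g a e (h a ha) hea

private lemma bd_iter {B : Type} (g : B → List B) (w : List B) (h : ∀ e ∈ w, Bd g e) (n : ℕ) :
    ∀ e ∈ (app g)^[n] w, Bd g e := by
  induction n with
  | zero => exact h
  | succ n ih =>
    rw [Function.iterate_succ_apply']
    exact bd_app g _ ih

private lemma bd_ep {B : Type} [Finite B] (g : B → List B) (c : B) (h : Bd g c) :
    ∃ P, 1 ≤ P ∧ EP (app g) [c] P := by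
  obtain ⟨C, hC⟩ := h
  exact ep_finite (List.finite_length_le B C) hC

/-! ### the last letter which is not bounded -/

private lemma last_ex {B : Type} (p : B → Prop) (w : List B) (h : ∃ e ∈ w, ¬ p e) :
    ∃ x d s, w = x ++ d :: s ∧ ¬ p d ∧ ∀ e ∈ s, p e := by
  induction w with
  | nil => obtain ⟨e, he, -⟩ := h; simp at he
  | cons a w ih =>
    by_cases hw : ∃ e ∈ w, ¬ p e
    · obtain ⟨x, d, s, h1, h2, h3⟩ := ih hw
      exact ⟨a :: x, d, s, by rw [h1]; rfl, h2, h3⟩
    · push Not at hw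
      obtain ⟨e, he, hpe⟩ := h
      rcases List.mem_cons.1 he with rfl | he
      · exact ⟨[], e, w, rfl, hpe, hw⟩
      · exact absurd (hw e he) hpe

private lemma last_uniq {B : Type} (p : B → Prop) {x s x' s' : List B} {d d' : B}
    (h : x ++ d :: s = x' ++ d' :: s') (hd : ¬ p d) (hd' : ¬ p d') (hs : ∀ e ∈ s, p e)
    (hs' : ∀ e ∈ s', p e) : d = d' := by
  classical
  have key : ∀ (x s : List B) (d : B), ¬ p d → (∀ e ∈ s, p e) →
      ((x ++ d :: s).filter fun e => decide (¬ p e)).getLast? = some d := by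
    intro x s d hd hs
    have h1 : (s.filter fun e => decide (¬ p e)) = [] := by
      rw [List.filter_eq_nil_iff]
      intro e he
      simp [hs e he]
    rw [List.filter_append, List.filter_cons_of_pos (by simp [hd]), h1]
    simp
  have h1 := key x s d hd hs
  rw [h, key x' s' d' hd' hs'] at h1
  exact (Option.some.inj h1).symm

private lemma lam_ex {B : Type} (g : B → List B) : ∃ lam : B → B, ∀ c, ¬ Bd g c →
    ¬ Bd g (lam c) ∧ ∃ x s, g c = x ++ lam c :: s ∧ ∀ e ∈ s, Bd g e := by
  have h : ∀ c, ∃ d, ¬ Bd g c →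
      ¬ Bd g d ∧ ∃ x s, g c = x ++ d :: s ∧ ∀ e ∈ s, Bd g e := by
    intro c
    by_cases hc : Bd g c
    · exact ⟨c, fun h => absurd hc h⟩
    · have h1 : ∃ e ∈ g c, ¬ Bd g e := by
        by_contra hcon
        push Not at hcon
        exact hc (bd_of_all g c hcon)
      obtain ⟨x, d, s, h2, h3, h4⟩ := last_ex (Bd g) (g c) h1
      exact ⟨d, fun _ => ⟨h3, x, s, h2, h4⟩⟩
  choose lam hlam using h
  exact ⟨lam, hlam⟩

private lemma lam_iter {B : Type} (g : B → List B) (lam : B → B) (hlam : ∀ c, ¬ Bd g c →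
    ¬ Bd g (lam c) ∧ ∃ x s, g c = x ++ lam c :: s ∧ ∀ e ∈ s, Bd g e) (c : B) (hc : ¬ Bd g c)
    (n : ℕ) : ¬ Bd g (lam^[n] c) ∧
      ∃ x s, (app g)^[n] [c] = x ++ lam^[n] c :: s ∧ ∀ e ∈ s, Bd g e := by
  induction n with
  | zero => exact ⟨hc, [], [], rfl, by simp⟩
  | succ n ih =>
    obtain ⟨h1, x, s, h2, h3⟩ := ih
    obtain ⟨h4, x1, s1, h5, h6⟩ := hlam _ h1
    rw [Function.iterate_succ_apply', Function.iterate_succ_apply', h2]
    refine ⟨h4, app g x ++ x1, s1 ++ app g s, ?_, ?_⟩
    · have e2 : lam^[n] c :: s = [lam^[n] c] ++ s := rfl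
      rw [c_app, e2, c_app, c_app_sing, h5]
      simp
    · intro e he
      rcases List.mem_append.1 he with he | he
      · exact h6 e he
      · exact bd_app g s h3 e he

/-! ### the power -/

private lemma len_mono {B : Type} (g : B → List B) (hg : NE g) (w : List B) (n m : ℕ)
    (h : n ≤ m) : ((app g)^[n] w).length ≤ ((app g)^[m] w).length := by
  have h1 : ∀ v : List B, v.length ≤ (app g v).length := by
    intro v
    induction v with
    | nil => simp
    | cons a v ih =>
      have e : a :: v = [a] ++ v := rfl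
      rw [e, c_app, c_app_sing, List.length_append, List.length_append]
      have h2 := List.length_pos_of_ne_nil (hg a)
      have h3 : ([a] : List B).length = 1 := rfl
      omega
  induction m, h using Nat.le_induction with
  | base => exact le_rfl
  | succ m _ ih =>
    rw [Function.iterate_succ_apply']
    exact ih.trans (h1 _)

private lemma app_h {B : Type} (g : B → List B) (P : ℕ) :
    app (fun c => (app g)^[P] [c]) = (app g)^[P] := by
  funext w
  rw [c_iter g P w]
  rfl

private lemma dd_iff {B : Type} (g : B → List B) (hg : NE g) (P : ℕ) (hP : 1 ≤ P)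
    (h1 : ∀ c, Bd g c → EP (app g) [c] P) (c : B) :
    DD (fun c => (app g)^[P] [c]) c ↔ Bd g c := by
  have h2 : DD (fun c => (app g)^[P] [c]) c ↔ EP (app g) [c] P := by
    unfold DD EP
    rw [app_h, ← Function.iterate_add_apply, ← two_mul]
  rw [h2]
  constructor
  · intro h
    refine ⟨((app g)^[P] [c]).length, fun n => ?_⟩
    have h3 := ep_pow h (n + 1) (by omega)
    rw [← h3]
    refine len_mono g hg _ _ _ ?_
    calc n ≤ n + 1 := Nat.le_succ n
      _ ≤ (n + 1) * P := Nat.le_mul_of_pos_right _ hP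
  · exact h1 c

private lemma part1 {B : Type} (g : B → List B) (hg : NE g) (P : ℕ) (hP : 1 ≤ P)
    (h1 : ∀ c, Bd g c → EP (app g) [c] P) (c : B)
    (hc : ¬ DD (fun c => (app g)^[P] [c]) c) (L : ℕ) :
    ∃ n, L ≤ ((app (fun c => (app g)^[P] [c]))^[n] [c]).length := by
  by_contra hcon
  push Not at hcon
  apply hc
  rw [dd_iff g hg P hP h1]
  refine ⟨L, fun n => ?_⟩
  have h2 := hcon n
  rw [app_h, ← Function.iterate_mul] at h2
  refine le_trans (len_mono g hg _ _ _ ?_) h2.le
  exact Nat.le_mul_of_pos_left _ hP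

private lemma part2 {B : Type} (g : B → List B) (P : ℕ) (lam : B → B) (hlam : ∀ c, ¬ Bd g c →
    ¬ Bd g (lam c) ∧ ∃ x s, g c = x ++ lam c :: s ∧ ∀ e ∈ s, Bd g e)
    (h2 : ∀ c, EP lam c P) (c : B) (x : List B) (d : B) (s : List B)
    (hc : (app g)^[P] [c] = x ++ d :: s) (hd : ¬ Bd g d) (hs : ∀ e ∈ s, Bd g e) :
    ∃ x' s', (app g)^[P] [d] = x' ++ d :: s' ∧ ∀ e ∈ s', Bd g e := by
  have hcb : ¬ Bd g c := by
    intro hb
    have h3 := bd_iter g [c] (by simpa using hb) P d
    rw [hc] at h3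
    exact hd (h3 (by simp))
  obtain ⟨h3, x1, s1, h4, h5⟩ := lam_iter g lam hlam c hcb P
  rw [hc] at h4
  have h6 : d = lam^[P] c := last_uniq (Bd g) h4 hd h3 hs h5
  obtain ⟨-, x2, s2, h8, h9⟩ := lam_iter g lam hlam d hd P
  have h10 : lam^[P] d = d := by
    rw [h6, ← Function.iterate_add_apply, ← two_mul]
    exact h2 c
  rw [h10] at h8
  exact ⟨x2, s2, h8, h9⟩

/-! ### reversal -/

private lemma rev_app {B : Type} (g : B → List B) (w : List B) :
    app (fun c => (g c).reverse) w.reverse = (app g w).reverse := by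
  induction w with
  | nil => rfl
  | cons a w ih =>
    have e : a :: w = [a] ++ w := rfl
    rw [e, List.reverse_append, c_app, c_app, List.reverse_append, ih]
    simp [app]

private lemma rev_iter {B : Type} (g : B → List B) (n : ℕ) (w : List B) :
    (app fun c => (g c).reverse)^[n] w.reverse = ((app g)^[n] w).reverse := by
  induction n generalizing w with
  | zero => rfl
  | succ n ih =>
    rw [Function.iterate_succ_apply, Function.iterate_succ_apply, rev_app, ih]

private lemma rev_iter' {B : Type} (g : B → List B) (n : ℕ) (c : B) :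
    (app fun c => (g c).reverse)^[n] [c] = ((app g)^[n] [c]).reverse := by
  have h := rev_iter g n [c]
  simpa using h

private lemma rev_bd {B : Type} (g : B → List B) (c : B) :
    Bd (fun c => (g c).reverse) c ↔ Bd g c := by
  unfold Bd
  simp only [rev_iter', List.length_reverse]

/-- HKS2-3 -/
theorem idem : IdemSt := by
  intro B _ g hg
  obtain ⟨lam, hlam⟩ := lam_ex g
  obtain ⟨lam', hlam'⟩ := lam_ex (fun c => (g c).reverse)
  obtain ⟨P1, hP1, h1⟩ := ep_common (app g) (fun c : B => [c]) (Bd g) (fun c hc => bd_ep g c hc)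
  obtain ⟨P2, hP2, h2⟩ := ep_common lam (fun c : B => c) (fun _ => True)
    (fun c _ => ep_finite (Set.finite_univ) (fun _ => Set.mem_univ _))
  obtain ⟨P3, hP3, h3⟩ := ep_common lam' (fun c : B => c) (fun _ => True)
    (fun c _ => ep_finite (Set.finite_univ) (fun _ => Set.mem_univ _))
  obtain ⟨P, hPdef⟩ : ∃ P, P = P1 * P2 * P3 := ⟨_, rfl⟩
  have hP : 1 ≤ P := by
    rw [hPdef]
    exact Nat.succ_le_of_lt (Nat.mul_pos (Nat.mul_pos hP1 hP2) hP3)
  have k1 : ∀ c, Bd g c → EP (app g) [c] P := fun c hc =>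
    ep_dvd (h1 c hc) hP (by rw [hPdef]; exact ⟨P2 * P3, by ring⟩)
  have k2 : ∀ c, EP lam c P := fun c =>
    ep_dvd (h2 c trivial) hP (by rw [hPdef]; exact ⟨P1 * P3, by ring⟩)
  have k3 : ∀ c, EP lam' c P := fun c =>
    ep_dvd (h3 c trivial) hP (by rw [hPdef]; exact ⟨P1 * P2, by ring⟩)
  have dd := dd_iff g hg P hP k1
  refine ⟨P, hP, part1 g hg P hP k1, ?_, ?_⟩
  · intro c x d s hc hd hs
    obtain ⟨x', s', a1, a2⟩ := part2 g P lam hlam k2 c x d s hc
      (fun h => hd ((dd d).2 h)) (fun e he => (dd e).1 (hs e he))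
    exact ⟨x', s', a1, fun e he => (dd e).2 (a2 e he)⟩
  · intro c x d s hc hd hs
    have hc' : (app fun c => (g c).reverse)^[P] [c] = x.reverse ++ d :: s.reverse := by
      rw [rev_iter']
      have : (app g)^[P] [c] = s ++ d :: x := hc
      rw [this]
      simp
    obtain ⟨x', s', a1, a2⟩ := part2 _ P lam' hlam' k3 c x.reverse d s.reverse hc'
      (fun h => hd ((dd d).2 ((rev_bd g d).1 h)))
      (fun e he => (rev_bd g e).2 ((dd e).1 (hs e (List.mem_reverse.1 he))))
    refine ⟨x'.reverse, s'.reverse, ?_, ?_⟩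
    · rw [rev_iter'] at a1
      have h5 := congrArg List.reverse a1
      rw [List.reverse_reverse] at h5
      change (app g)^[P] [d] = _
      rw [h5]
      simp
    · intro e he
      exact (dd e).2 ((rev_bd g e).1 (a2 e (List.mem_reverse.1 he)))

end Pool.Agent.H23.HKS
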