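import Pool.Agent.H23.HKS.Spec

/-!
# HKS-5: images, conjugate morphisms and tail equivalence
-/

namespace Pool.Agent.H23.HKS

private theorem Img2_len {A : Type} (u : ℕ → A) (i n : ℕ) : (slice u i n).length = n := by
  simp [slice]

private theorem Img2_get {A : Type} (u : ℕ → A) (n k : ℕ) (hk : k < n) :
    (slice u 0 n)[k]? = some (u k) := by
  simp [slice, hk]

private theorem Img2_add {A : Type} (u : ℕ → A) (m n : ℕ) :
    slice u 0 (m + n) = slice u 0 m ++ slice (fun t => u (m + t)) 0 n := by
  simp only [slice, List.range_add, List.map_append, List.map_map, zero_add]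
  rfl

private theorem Img2_app {A B : Type} (f : A → List B) (v w : List A) :
    app f (v ++ w) = app f v ++ app f w := by
  simp [app]

/-- The letters of an image. -/
private theorem Img2_at {A B : Type} {h : A → List B} {x : ℕ → A} {y : ℕ → B}
    (H : IsImage h x y) {n k : ℕ} (hk : k < (app h (slice x 0 n)).length) :
    (app h (slice x 0 n))[k]? = some (y k) := by
  obtain ⟨m, hm⟩ := H.1 n
  rw [hm] at hk ⊢
  rw [Img2_len] at hk
  exact Img2_get y m k hk

private theorem Img2_unique {A B : Type} {h : A → List B} {x : ℕ → A} {y y' : ℕ → B}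
    (H : IsImage h x y) (H' : IsImage h x y') (k : ℕ) : y k = y' k := by
  obtain ⟨n, hn⟩ := H.2 (k + 1)
  have h1 := Img2_at H (n := n) (k := k) hn
  have h2 := Img2_at H' (n := n) (k := k) hn
  rw [h1] at h2
  exact Option.some.inj h2

private theorem Img2_word {A B : Type} {h h' : A → List B} {w : List B}
    (hw : ∀ a, h a ++ w = w ++ h' a) (z : List A) : app h z ++ w = w ++ app h' z := by
  induction z with
  | nil => simp [app]
  | cons a z ih =>
    have e1 : app h (a :: z) = h a ++ app h z := by simp [app]
    have e2 : app h' (a :: z) = h' a ++ app h' z := by simp [app]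
    rw [e1, e2, List.append_assoc, ih, ← List.append_assoc, hw, List.append_assoc]

private theorem Img2_wlen {A B : Type} {h h' : A → List B} {w : List B}
    (hw : ∀ a, h a ++ w = w ++ h' a) (z : List A) :
    (app h z).length = (app h' z).length := by
  have := congrArg List.length (Img2_word hw z)
  rw [List.length_append, List.length_append] at this
  omega

private theorem Img2_key {A B : Type} {h h' : A → List B} {w : List B} {x : ℕ → A}
    {y y' : ℕ → B} (hw : ∀ a, h a ++ w = w ++ h' a) (H : IsImage h x y)
    (H' : IsImage h' x y') (k : ℕ) : y' k = y (w.length + k) := by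
  obtain ⟨n, hn⟩ := H.2 (w.length + k + 1)
  have h0 : w.length + k < (app h (slice x 0 n)).length := hn
  have h0' : k < (app h' (slice x 0 n)).length := by
    rw [← Img2_wlen hw]
    omega
  have h1 := Img2_at H h0
  have h2 := Img2_at H' h0'
  have h3 : (app h (slice x 0 n) ++ w)[w.length + k]? = (w ++ app h' (slice x 0 n))[w.length + k]? := by
    rw [Img2_word hw (slice x 0 n)]
  rw [List.getElem?_append_left h0, List.getElem?_append_right (Nat.le_add_right _ _),
    Nat.add_sub_cancel_left, h1, h2] at h3
  exact (Option.some.inj h3).symm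

theorem teConj : ExImageSt → PosSt → TEConjSt := by
  intro hex _ A B h h' x y hc H
  rcases hc with ⟨w, hw⟩ | ⟨w, hw⟩
  · obtain ⟨y', H'⟩ := hex A B h' x (fun m => by
      obtain ⟨n, hn⟩ := H.2 m
      exact ⟨n, by rw [← Img2_wlen hw]; exact hn⟩)
    exact ⟨y', H', 0, w.length, fun k => by rw [zero_add]; exact Img2_key hw H H' k⟩
  · obtain ⟨y', H'⟩ := hex A B h' x (fun m => by
      obtain ⟨n, hn⟩ := H.2 m
      exact ⟨n, by rw [Img2_wlen hw]; exact hn⟩)
    exact ⟨y', H', w.length, 0, fun k => by rw [zero_add]; exact (Img2_key hw H' H k).symm⟩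

theorem teMap : ExImageSt → PosSt → TEMapSt := by
  intro hex hpos A B h x x' y hTE H
  obtain ⟨i, j, hij⟩ := hTE
  have ht : (fun t => x' (i + t)) = fun t => x (j + t) := funext hij
  have H1 := (hpos A B h x y H j).2
  obtain ⟨y', H'⟩ := hex A B h x' (fun m => by
    obtain ⟨n, hn⟩ := H1.2 m
    refine ⟨i + n, ?_⟩
    rw [Img2_add, Img2_app, List.length_append, ht]
    exact le_trans hn (Nat.le_add_left _ _))
  have H2 := (hpos A B h x' y' H' i).2
  rw [ht] at H2
  exact ⟨y', H', _, _, fun k => Img2_unique H2 H1 k⟩

end Pool.Agent.H23.HKS
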