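import Pool.Agent.H23.HKS.Spec

/-!
# HKS-3: the two-sided word around 0 occurs arbitrarily late
-/

set_option autoImplicit false

namespace Pool.Agent.H23.HKS

theorem late_s_neg_one : s (-1) = true := by
  rw [s]
  simp

theorem late_s_zero : s 0 = true := by
  rw [s]
  simp

theorem late_V (hV : VSt) (hs : sSt) (m : ℕ) (h0 : V m = true) (h1 : V (m + 1) = true) :
    ∀ (n k : ℕ) (i : ℤ), -(4 : ℤ) ^ n ≤ i → i < (4 : ℤ) ^ n →
      (k : ℤ) = (4 : ℤ) ^ n * ((m : ℤ) + 1) + i → V k = s i := by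
  intro n
  induction n with
  | zero =>
    intro k i hi1 hi2 hk
    simp only [pow_zero, one_mul] at hi1 hi2 hk
    have h3 : i = -1 ∨ i = 0 := by omega
    rcases h3 with rfl | rfl
    · have : k = m := by omega
      rw [this, h0, late_s_neg_one]
    · have : k = m + 1 := by omega
      rw [this, h1, late_s_zero]
  | succ n ih =>
    intro k i hi1 hi2 hk
    have hK : (4 : ℤ) ^ (n + 1) * ((m : ℤ) + 1) = 4 * ((4 : ℤ) ^ n * ((m : ℤ) + 1)) := by ring
    rw [hK] at hk
    have hK2 : (4 : ℤ) ^ (n + 1) = 4 * (4 : ℤ) ^ n := by ring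
    rw [hK2] at hi1 hi2
    generalize hP : (4 : ℤ) ^ n = P at *
    generalize hQ : P * ((m : ℤ) + 1) = Q at *
    have e := ih (k / 4) (i / 4) (by omega) (by omega) (by omega)
    rw [hV k, hs i, e]
    have h4 : (k % 4 = 1) ↔ (i % 4 = 1) := by omega
    have h5 : (k % 4 = 2) ↔ (i % 4 = 2) := by omega
    simp only [h4, h5]

theorem late_u (hV : VSt) (hs : sSt) (m : ℕ) (h0 : V m = true) (h1 : V (m + 1) = true)
    (n k : ℕ) (t : ℤ) (ht1 : -(3 * (4 : ℤ) ^ n) ≤ t) (ht2 : t < 3 * (4 : ℤ) ^ n)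
    (hk : (k : ℤ) = 3 * ((4 : ℤ) ^ n * ((m : ℤ) + 1)) + t) : u k = S t := by
  have e : V (k / 3) = s (t / 3) := by
    apply late_V hV hs m h0 h1 n (k / 3) (t / 3)
    · generalize (4 : ℤ) ^ n = P at *
      omega
    · generalize (4 : ℤ) ^ n = P at *
      omega
    · generalize (4 : ℤ) ^ n * ((m : ℤ) + 1) = Q at *
      omega
  have h3 : k % 3 = (t % 3).toNat := by
    generalize (4 : ℤ) ^ n * ((m : ℤ) + 1) = Q at *
    omega
  unfold u S
  rw [e, h3]

theorem late_mark (hV : VSt) (l : ℕ) : V (16 * l + 4) = true ∧ V (16 * l + 4 + 1) = true := by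
  constructor
  · rw [hV, if_neg (by omega), if_neg (by omega), hV, if_pos (by omega)]
  · rw [hV, if_pos (by omega)]

theorem late (hV : VSt) (hs : sSt) : LateSt := by
  intro y hy R J
  set P : ℕ := 4 ^ R with hP
  have hRP : R ≤ P := (Nat.lt_pow_self (by norm_num)).le
  have hmem : slice y (J + R) (180 * P) ∈ Lang u := by
    rw [← hy]
    exact ⟨_, _, rfl⟩
  obtain ⟨i, n, hin⟩ := hmem
  have hlen : n = 180 * P := by
    have := congrArg List.length hin
    simp [slice] at this
    exact this.symm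
  subst hlen
  have hpt : ∀ t, t < 180 * P → y (J + R + t) = u (i + t) := by
    intro t ht
    have := congrArg (fun l => l[t]?) hin
    simpa [slice, ht] using this
  set l : ℕ := i / (48 * P) + 1 with hl
  have hPpos : 0 < P := by positivity
  have hl1 : i < 48 * P * l := by
    rw [hl]
    exact Nat.lt_mul_div_succ i (by positivity)
  have hl2 : 48 * P * l ≤ i + 48 * P := by
    rw [hl, mul_add, mul_one]
    have := Nat.mul_div_le i (48 * P)
    omega
  obtain ⟨hm0, hm1⟩ := late_mark hV l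
  set c : ℕ := 48 * P * l + 15 * P with hc
  refine ⟨J + R + (c - i), by omega, by omega, fun t ht1 ht2 => ?_⟩
  have hPR : (R : ℤ) ≤ (P : ℤ) := by exact_mod_cast hRP
  have hci : (i : ℤ) + 15 * P ≤ c := by
    have : i + 15 * P ≤ c := by omega
    exact_mod_cast this
  have hci2 : (c : ℤ) ≤ i + 63 * P := by
    have : c ≤ i + 63 * P := by omega
    exact_mod_cast this
  have hsub : ((c - i : ℕ) : ℤ) = (c : ℤ) - i := by
    have : i ≤ c := by omega
    omega
  obtain ⟨q, hq⟩ : ∃ q : ℕ, (q : ℤ) = (c : ℤ) - i + t := ⟨((c : ℤ) - i + t).toNat, by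
    have hPp : (0 : ℤ) < P := by exact_mod_cast hPpos
    omega⟩
  have hq2 : q < 180 * P := by
    have hPp : (0 : ℤ) < P := by exact_mod_cast hPpos
    omega
  have hidx : (((J + R + (c - i) : ℕ) : ℤ) + t).toNat = J + R + q := by
    omega
  rw [hidx, hpt q hq2]
  apply late_u hV hs (16 * l + 4) hm0 hm1 R (i + q) t
  · have : (P : ℤ) = (4 : ℤ) ^ R := by rw [hP]; push_cast; rfl
    rw [← this]
    have hPp : (0 : ℤ) < P := by exact_mod_cast hPpos
    omega
  · have : (P : ℤ) = (4 : ℤ) ^ R := by rw [hP]; push_cast; rfl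
    rw [← this]
    have hPp : (0 : ℤ) < P := by exact_mod_cast hPpos
    omega
  · have h1 : (P : ℤ) = (4 : ℤ) ^ R := by rw [hP]; push_cast; rfl
    rw [← h1]
    have h2 : (c : ℤ) = 48 * P * l + 15 * P := by rw [hc]; push_cast; ring
    push_cast
    rw [hq, h2]
    ring

end Pool.Agent.H23.HKS
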