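import Pool.Agent.H23.HKS.Spec2
import Pool.Agent.H23.HKS.Cover

/-!
# HKS2-6: periodic windows of `v` give periodic windows of `f (v)`
-/

set_option autoImplicit false

namespace Pool.Agent.H23.HKS

private lemma per_len_ge {A B : Type} {f : A → List B} (hf : NE f) (w : List A) :
    w.length ≤ (app f w).length := by
  induction w with
  | nil => simp
  | cons a w ih =>
    have e1 : app f (a :: w) = f a ++ app f w := by simp [app]
    have h1 : 1 ≤ (f a).length := List.length_pos_iff.2 (hf a)
    rw [e1, List.length_append, List.length_cons]
    omega

private lemma per_len_le {A B : Type} {f : A → List B} {F : ℕ} (hF : ∀ a, (f a).length ≤ F)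
    (w : List A) : (app f w).length ≤ w.length * F := by
  induction w with
  | nil => simp [app]
  | cons a w ih =>
    have e1 : app f (a :: w) = f a ++ app f w := by simp [app]
    have h1 := hF a
    rw [e1, List.length_append, List.length_cons, Nat.succ_mul]
    omega

private lemma per_at (hpos : PosSt) {A B : Type} {f : A → List B} {x : ℕ → A} {y : ℕ → B}
    (h : IsImage f x y) (i n : ℕ) :
    slice y (app f (slice x 0 i)).length (app f (slice x i n)).length = app f (slice x i n) := by
  have h2 := (hpos A B f x y h i).2
  obtain ⟨m, hm⟩ := h2.1 n
  rw [c_shift, c_shift, Nat.add_zero, Nat.add_zero] at hm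
  have hlen : (app f (slice x i n)).length = m := by rw [hm, c_len]
  rw [hlen]
  exact hm.symm

private lemma per_letter (hpos : PosSt) {A B : Type} {f : A → List B} {x : ℕ → A} {y : ℕ → B}
    (h : IsImage f x y) (i n j : ℕ) (hj : j < (app f (slice x i n)).length) :
    (app f (slice x i n))[j] = y ((app f (slice x 0 i)).length + j) := by
  have h1 := per_at hpos h i n
  have h2 : j < (slice y (app f (slice x 0 i)).length (app f (slice x i n)).length).length := by
    rw [c_len]
    exact hj
  have h3 : (app f (slice x i n))[j] =
      (slice y (app f (slice x 0 i)).length (app f (slice x i n)).length)[j] := by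
    congr 1
    exact h1.symm
  rw [h3, c_get]

theorem per : PosSt → PerSt := by
  intro hpos B C _ f v y hf hy ⟨p, hp, hper⟩
  obtain ⟨F, hF⟩ : ∃ F, ∀ b, (f b).length ≤ F := by
    have := Fintype.ofFinite B
    exact ⟨∑ b, (f b).length, fun b =>
      Finset.single_le_sum (f := fun b => (f b).length) (fun _ _ => Nat.zero_le _)
        (Finset.mem_univ b)⟩
  refine ⟨(p * F).factorial, Nat.factorial_pos _, fun R => ?_⟩
  obtain ⟨i, hi⟩ := hper (R + (p * F).factorial)
  set q : ℕ := (app f (slice v i p)).length with hq
  have hq1 : 1 ≤ q := by
    have := per_len_ge hf (slice v i p)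
    rw [c_len] at this
    omega
  have hq2 : q ≤ p * F := by
    have := per_len_le hF (slice v i p)
    rwa [c_len] at this
  obtain ⟨t, ht⟩ := Nat.dvd_factorial hq1 hq2
  set a : ℕ := (app f (slice v 0 i)).length with ha
  -- the two windows of `v` are equal
  have hsl : slice v i (R + (p * F).factorial) = slice v (i + p) (R + (p * F).factorial) := by
    apply List.ext_getElem
    · rw [c_len, c_len]
    · intro k h1 h2
      rw [c_get, c_get]
      rw [c_len] at h1
      rw [hi k h1]
      congr 1
      omega
  have ha' : (app f (slice v 0 (i + p))).length = a + q := by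
    rw [c_add, c_app, List.length_append, Nat.zero_add]
  -- the window of `y` has period `q`
  have key : ∀ j, j < R + (p * F).factorial → y (a + j) = y (a + j + q) := by
    intro j hj
    have hj1 : j < (app f (slice v i (R + (p * F).factorial))).length := by
      refine lt_of_lt_of_le hj ?_
      have := per_len_ge hf (slice v i (R + (p * F).factorial))
      rwa [c_len] at this
    have hj2 : j < (app f (slice v (i + p) (R + (p * F).factorial))).length := by
      rw [← hsl]
      exact hj1
    have e1 := per_letter hpos hy i (R + (p * F).factorial) j hj1
    have e2 := per_letter hpos hy (i + p) (R + (p * F).factorial) j hj2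
    have e3 : (app f (slice v i (R + (p * F).factorial)))[j] =
        (app f (slice v (i + p) (R + (p * F).factorial)))[j] := by
      congr 2
    rw [e1, e2, ha'] at e3
    rw [e3]
    congr 1
    omega
  refine ⟨a, fun k hk => ?_⟩
  have hst : ∀ s, s ≤ t → y (a + k) = y (a + k + q * s) := by
    intro s
    induction s with
    | zero => intro _; simp
    | succ s ih =>
      intro hs
      rw [ih (by omega)]
      have h1 : q * (s + 1) ≤ q * t := Nat.mul_le_mul_left q hs
      have h2 : q * (s + 1) = q * s + q := by ring
      have h3 := key (k + q * s) (by omega)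
      rw [← add_assoc] at h3
      rw [h3, h2, ← add_assoc]
  rw [ht]
  exact hst t le_rfl

end Pool.Agent.H23.HKS
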