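import Pool.Agent.H23.HKS.Spec

/-!
# HKS-6: the primitive case
-/

set_option autoImplicit false

namespace Pool.Agent.H23.HKS

private theorem pr_app_nil {A B : Type} (f : A → List B) : app f [] = [] := rfl

private theorem pr_app_cons {A B : Type} (f : A → List B) (a : A) (w : List A) :
    app f (a :: w) = f a ++ app f w := by
  simp [app]

private theorem pr_app_append {A B : Type} (f : A → List B) (w w' : List A) :
    app f (w ++ w') = app f w ++ app f w' := by
  simp [app]

private theorem pr_iter_nil {B : Type} (g : B → List B) (n : ℕ) : (app g)^[n] [] = [] := by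
  induction n with
  | zero => rfl
  | succ n ih => rw [Function.iterate_succ_apply, pr_app_nil, ih]

private theorem pr_iter_append {B : Type} (g : B → List B) (n : ℕ) (w w' : List B) :
    (app g)^[n] (w ++ w') = (app g)^[n] w ++ (app g)^[n] w' := by
  induction n generalizing w w' with
  | zero => rfl
  | succ n ih => rw [Function.iterate_succ_apply, pr_app_append, ih,
      Function.iterate_succ_apply, Function.iterate_succ_apply]

private theorem pr_iter_flat {B : Type} (g : B → List B) (n : ℕ) (w : List B) :
    (app g)^[n] w = app (fun d => (app g)^[n] [d]) w := by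
  induction w with
  | nil => rw [pr_iter_nil, pr_app_nil]
  | cons a w ih =>
    rw [pr_app_cons, ← ih, ← pr_iter_append]
    rfl

private theorem pr_app_app {A B C : Type} (f : B → List C) (h : A → List B) (w : List A) :
    app f (app h w) = app (fun d => app f (h d)) w := by
  induction w with
  | nil => rfl
  | cons a w ih => rw [pr_app_cons, pr_app_append, ih, pr_app_cons]

private theorem pr_len_ge {A B : Type} (f : A → List B) (w : List A)
    (h : ∀ d ∈ w, 1 ≤ (f d).length) : w.length ≤ (app f w).length := by
  induction w with
  | nil => simp
  | cons a w ih =>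
    rw [pr_app_cons, List.length_append, List.length_cons]
    have h1 := h a (by simp)
    have h2 := ih (fun d hd => h d (List.mem_cons_of_mem _ hd))
    omega

private theorem pr_mem_len {A B : Type} (f : A → List B) {w : List A} {b : A} (hb : b ∈ w) :
    (f b).length ≤ (app f w).length := by
  induction w with
  | nil => simp at hb
  | cons a w ih =>
    rw [pr_app_cons, List.length_append]
    rcases List.mem_cons.1 hb with h | h
    · rw [h]
      omega
    · have := ih h
      omega

private theorem pr_nonempty {A B : Type} (f : A → List B) (w : List A)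
    (h : 1 ≤ (app f w).length) : ∃ b ∈ w, 1 ≤ (f b).length := by
  induction w with
  | nil => simp [app] at h
  | cons a w ih =>
    rw [pr_app_cons, List.length_append] at h
    by_cases h1 : 1 ≤ (f a).length
    · exact ⟨a, by simp, h1⟩
    · obtain ⟨b, hb, h2⟩ := ih (by omega)
      exact ⟨b, List.mem_cons_of_mem _ hb, h2⟩

private theorem pr_two {A : Type} {w : List A} {a b : A} (hab : a ≠ b) (ha : a ∈ w)
    (hb : b ∈ w) : 2 ≤ w.length := by
  rcases w with _ | ⟨c, _ | ⟨d, w⟩⟩
  · simp at ha
  · rw [List.mem_singleton] at ha hb
    exact (hab (ha.trans hb.symm)).elim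
  · simp

private theorem pr_slice_len {A : Type} (x : ℕ → A) (i n : ℕ) : (slice x i n).length = n := by
  rw [slice, List.length_map, List.length_range]

theorem prim : VSt → PosSt → PrimSt := by
  intro _ _ B _ v g f y _ hp hf hL
  obtain ⟨n₀, hn₀⟩ := hf.2 1
  obtain ⟨b, -, hb⟩ := pr_nonempty f _ hn₀
  by_cases hB : ∃ a a' : B, a ≠ a'
  · obtain ⟨a, a', haa⟩ := hB
    obtain ⟨k, -, hk⟩ := hp
    refine ⟨k + k, fun i => ?_⟩
    rw [Function.iterate_add_apply, pr_iter_flat g k, pr_app_app]
    refine le_trans (pr_two haa (hk (v i) a) (hk (v i) a')) (pr_len_ge _ _ ?_)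
    intro d _
    exact le_trans hb (pr_mem_len f (hk d b))
  · push Not at hB
    by_cases h2 : 2 ≤ (f b).length
    · refine ⟨0, fun i => ?_⟩
      rw [hB (v i) b, Function.iterate_zero_apply, pr_app_cons, List.length_append]
      omega
    · exfalso
      obtain ⟨c, hc⟩ := List.length_eq_one_iff.1 (by omega : (f b).length = 1)
      have happ : ∀ w : List B, app f w = List.replicate w.length c := by
        intro w
        induction w with
        | nil => rfl
        | cons a w ih =>
          rw [pr_app_cons, hB a b, hc, ih, List.length_cons, List.replicate_succ]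
          rfl
      have hy : ∀ j, y j = c := by
        intro j
        obtain ⟨n, hn⟩ := hf.2 (j + 1)
        obtain ⟨m, hm⟩ := hf.1 n
        rw [happ] at hm hn
        rw [List.length_replicate] at hn
        have hlen := congrArg List.length hm
        rw [List.length_replicate, pr_slice_len y] at hlen
        have hjm : j < m := by omega
        have hmem : y j ∈ slice y 0 m := by
          rw [slice, List.mem_map]
          exact ⟨j, List.mem_range.2 hjm, by rw [Nat.zero_add]⟩
        rw [← hm] at hmem
        exact List.eq_of_mem_replicate hmem
      have h01 : slice u 0 2 ∈ Lang y := by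
        rw [hL]
        exact ⟨0, 2, rfl⟩
      obtain ⟨i, n, hin⟩ := h01
      have hmem : ∀ t < 2, u t = c := by
        intro t ht
        have h3 : u t ∈ slice u 0 2 := by
          rw [slice, List.mem_map]
          exact ⟨t, List.mem_range.2 ht, by rw [Nat.zero_add]⟩
        rw [hin, slice, List.mem_map] at h3
        obtain ⟨r, -, hr⟩ := h3
        rw [← hr, hy]
      have h0 := hmem 0 (by norm_num)
      have h1 := hmem 1 (by norm_num)
      have h4 : u 1 = 1 := by
        unfold u cod
        norm_num
      have h5 : u 0 = 0 ∨ u 0 = 2 := by
        unfold u cod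
        simp only [Nat.zero_mod]
        rw [if_neg (by norm_num)]
        split_ifs
        · exact Or.inl rfl
        · exact Or.inr rfl
      rw [h4] at h1
      rw [h0, ← h1] at h5
      rcases h5 with h5 | h5
      · exact absurd h5 (by decide)
      · exact absurd h5 (by decide)

end Pool.Agent.H23.HKS
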