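import Pool.Agent.H23.HKS.Defs

/-!
# Statements of the rows HKS-1 .. HKS-7
-/

namespace Pool.Agent.H23.HKS

/-- HKS-1 -/
def VSt : Prop := ∀ n, V n = if n % 4 = 1 then true else if n % 4 = 2 then false else V (n / 4)
/-- HKS-1 -/
def sSt : Prop := ∀ n, s n = if n % 4 = 1 then true else if n % 4 = 2 then false else s (n / 4)
/-- HKS-1 -/
def MorphSt : Prop := IsPrimitiveMorphic u
/-- HKS-1 -/
def PalSt : Prop := IsPalindromic u

/-- HKS-2: no palindrome of length at least 2 covers the letter 0 of `S`. -/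
def HoleSt : Prop := ∀ a b : ℤ, a ≤ 0 → 0 < b → 2 ≤ b - a →
  ¬ ∀ i, a ≤ i → i < b → S i = S (a + b - 1 - i)

/-- HKS-3: `S` around 0 occurs arbitrarily late in every word with the language of `u`. -/
def LateSt : Prop := ∀ y : ℕ → Fin 3, Lang y = Lang u → ∀ R J : ℕ, ∃ j, J ≤ j ∧ R ≤ j ∧
  ∀ t : ℤ, -(R : ℤ) ≤ t → t < R → y ((j : ℤ) + t).toNat = S t

/-- HKS-4a: existence of the image. -/
def ExImageSt : Prop := ∀ (A B : Type) (h : A → List B) (x : ℕ → A),
  (∀ m, ∃ n, m ≤ (app h (slice x 0 n)).length) → ∃ y, IsImage h x y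
/-- HKS-4b: positions of the blocks. -/
def PosSt : Prop := ∀ (A B : Type) (h : A → List B) (x : ℕ → A) (y : ℕ → B), IsImage h x y →
  ∀ n, slice y (app h (slice x 0 n)).length (h (x n)).length = h (x n) ∧
    IsImage h (fun i => x (n + i)) (fun i => y ((app h (slice x 0 n)).length + i))
/-- HKS-4c: conjugate morphisms. -/
def TEConjSt : Prop := ∀ (A B : Type) (h h' : A → List B) (x : ℕ → A) (y : ℕ → B),
  Conjugate h h' → IsImage h x y → ∃ y', IsImage h' x y' ∧ TE y' y
/-- HKS-4d: morphisms respect tail equivalence. -/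
def TEMapSt : Prop := ∀ (A B : Type) (h : A → List B) (x x' : ℕ → A) (y : ℕ → B),
  TE x' x → IsImage h x y → ∃ y', IsImage h x' y' ∧ TE y' y
/-- HKS-4e: composition. -/
def CompSt : Prop := ∀ (A B C : Type) (h : A → List B) (k : B → List C) (x : ℕ → A) (y : ℕ → B)
  (z : ℕ → C), IsImage h x y → IsImage k y z → IsImage (fun a => app k (h a)) x z
/-- HKS-4f: an image by a composition. -/
def DecompSt : Prop := ∀ (A B C : Type) [Finite B] (h : A → List B) (k : B → List C) (x : ℕ → A)
  (z : ℕ → C), IsImage (fun a => app k (h a)) x z → ∃ y, IsImage h x y ∧ IsImage k y z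

/-- HKS-5a: class P morphisms are good. -/
def GoodBaseSt : Prop := ∀ (A B : Type) (f : A → List B), ClassP f → ∃ P, Good f P
/-- HKS-5b: composition of a good morphism and a class P morphism. -/
def GoodStepSt : Prop := ∀ (A B C : Type) [Finite B] (g : A → List B) (K : B → List C)
  (P : List C), ClassP g → Good K P → ∃ Q, Good (fun a => app K (g a)) Q
/-- HKS-5c: lengths. -/
def LenSt : Prop := ∀ (B C : Type) (g g' : B → List B) (f f' : B → List C), Conjugate g g' →
  Conjugate f f' → ∀ n b, (app f' ((app g')^[n] [b])).length = (app f ((app g)^[n] [b])).length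

/-- HKS-6: covering by palindromes. -/
def CoverSt : Prop := ∀ (B C : Type) [Finite B] (v : ℕ → B) (g g' : B → List B)
  (f f' : B → List C) (y : ℕ → C), IsImage g v v → Conjugate g g' → ClassP g' →
  Conjugate f f' → ClassP f' → IsImage f v y → ∀ n,
  (∀ i, 2 ≤ (app f ((app g)^[n] [v i])).length) →
  ∃ J L : ℕ, ∀ j, J ≤ j → ∃ a b : ℕ, a ≤ j ∧ j < b ∧ a + 2 ≤ b ∧ b ≤ a + L ∧
    ∀ i, i < b - a → y (a + i) = y (b - 1 - i)

/-- HKS-7: the primitive case. -/
def PrimSt : Prop := ∀ (B : Type) [Finite B] (v : ℕ → B) (g : B → List B) (f : B → List (Fin 3))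
  (y : ℕ → Fin 3), IsImage g v v → IsPrimitive g → IsImage f v y → Lang y = Lang u →
  ∃ n, ∀ i, 2 ≤ (app f ((app g)^[n] [v i])).length

end Pool.Agent.H23.HKS
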